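import Pool.Agent.H55.GW.Targets1

/-!
# Two sources and many sinks (module CLO of S10293)
-/

set_option autoImplicit false

namespace Pool.Agent.H59.GW.CLO

open Pool.Agent.H55.GW Pool.Agent.H55.GW.Frame

variable {F : Frame} {M : Matroid ℕ} {m : ℕ → Vx}

theorem base_iff (hLB : T_LB) (hRep : F.Rep M) (hm : F.IsPM m) (X Y : Set ℕ)
    (hX : X ⊆ (F.E : Set ℕ) \ F.base m) (hY : Y ⊆ F.base m) (hc : X.ncard = Y.ncard) :
    M.IsBase ((F.base m \ Y) ∪ X) ↔ Lnk (F.D m) X.ncard (Sum.inl '' X) (Sum.inl '' Y) := by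
  rw [hRep.2]
  exact hLB F m hm X Y hX hY hc

/-- one exchange -/
theorem base_one (hLB : T_LB) (hRep : F.Rep M) (hm : F.IsPM m) (a t : ℕ) (ha : a ∈ F.E)
    (ha' : a ∉ F.base m) (ht : t ∈ F.base m) (h : RIn (F.D m) Set.univ (Sum.inl a) (Sum.inl t)) :
    M.IsBase ((F.base m \ {t}) ∪ {a}) := by
  rw [base_iff hLB hRep hm {a} {t} (by
    rw [Set.singleton_subset_iff]; exact ⟨by exact_mod_cast ha, ha'⟩) (by simpa using ht)
    (by rw [Set.ncard_singleton, Set.ncard_singleton])]
  rw [Set.ncard_singleton, Set.image_singleton, Set.image_singleton]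
  exact ⟨fun _ => Sum.inl a, fun _ => Sum.inl t, fun _ => Set.univ, fun _ => ⟨rfl, rfl, h⟩,
    fun i j hij => absurd (Subsingleton.elim i j) hij⟩

theorem clo (hMEN : T_MEN) (hLB : T_LB) : T_CLO := by
  classical
  intro q hq M F m hGam hRep hm a a' haa haE haB haE' haB' T hT r hr
  set B := F.base m with hB
  have hBase : M.IsBase B := (hRep.2 B).2 ⟨m, hm, rfl⟩
  have hEfin : M.E.Finite := hGam.1
  have hBfin : B.Finite := hEfin.subset hBase.subset_ground
  -- linked sinks
  set L : ℕ → ℕ → Prop := fun t t' => M.IsBase ((B \ {t, t'}) ∪ {a, a'}) with hL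
  have hLsymm : ∀ t t', L t t' → L t' t := by
    intro t t' h
    simp only [hL] at h ⊢
    rwa [Set.pair_comm t' t]
  have haT : ∀ t ∈ T, t ≠ a ∧ t ≠ a' := fun t ht =>
    ⟨fun h => haB (h ▸ (hT t ht).1), fun h => haB' (h ▸ (hT t ht).1)⟩
  -- (1) no `q` pairwise linked sinks
  have step1 : ∀ T₀ ⊆ T, (∀ t ∈ T₀, ∀ t' ∈ T₀, t ≠ t' → L t t') → T₀.card ≠ q := by
    intro T₀ hT₀ hlink hcard
    apply hGam.2.2.2
    have hT₀B : (T₀ : Set ℕ) ⊆ B := fun t ht => (hT t (hT₀ ht)).1
    have hC : M.Indep (B \ (T₀ : Set ℕ)) := hBase.indep.subset Set.sdiff_subset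
    have haT₀ : a ∉ (T₀ : Set ℕ) := fun h => haB (hT₀B h)
    have haT₀' : a' ∉ (T₀ : Set ℕ) := fun h => haB' (hT₀B h)
    have hRE : ((T₀ : Set ℕ) ∪ {a, a'}) ⊆ M.E := by
      rw [Set.union_subset_iff]
      refine ⟨hT₀B.trans hBase.subset_ground, ?_⟩
      rw [hRep.1]
      rintro x (rfl | rfl)
      · exact haE
      · exact haE'
    have hRC : Disjoint ((T₀ : Set ℕ) ∪ {a, a'}) (B \ (T₀ : Set ℕ)) := by
      rw [Set.disjoint_left]
      rintro x (hx | hx) ⟨h1, h2⟩
      · exact h2 hx
      · rcases hx with rfl | rfl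
        · exact haB h1
        · exact haB' h1
    have hground : ((M.contract (B \ (T₀ : Set ℕ))).delete (M.E \ ((T₀ : Set ℕ) ∪ {a, a'}))).E =
        (T₀ : Set ℕ) ∪ {a, a'} := by
      rw [Matroid.delete_ground, Matroid.contract_ground]
      ext x
      constructor
      · rintro ⟨⟨h1, h2⟩, h3⟩
        by_contra hcon
        exact h3 ⟨h1, hcon⟩
      · intro hx
        exact ⟨⟨hRE hx, fun h => Set.disjoint_left.1 hRC hx h⟩, fun h => h.2 hx⟩
    have hTfin : (T₀ : Set ℕ).Finite := T₀.finite_toSet
    have hpair : ({a, a'} : Set ℕ).ncard = 2 := Set.ncard_pair haa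
    have hdisj : Disjoint (T₀ : Set ℕ) {a, a'} := by
      rw [Set.disjoint_left]
      rintro x hx (rfl | rfl)
      · exact haT₀ hx
      · exact haT₀' hx
    have hcardR : ((T₀ : Set ℕ) ∪ {a, a'}).ncard = q + 2 := by
      rw [Set.ncard_union_eq hdisj hTfin (Set.toFinite _), hpair, Set.ncard_coe_finset, hcard]
    refine ⟨_, Matroid.contract_delete_isMinor M (B \ (T₀ : Set ℕ))
      (M.E \ ((T₀ : Set ℕ) ∪ {a, a'})), ?_, ?_⟩
    · rw [hground, hcardR]
    · intro I
      rw [hground, Matroid.delete_indep_iff, hC.contract_indep_iff]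
      have hCcard : (B \ (T₀ : Set ℕ)).ncard + q = B.ncard := by
        have := Set.ncard_sdiff_add_ncard_of_subset hT₀B hBfin
        rwa [Set.ncard_coe_finset, hcard] at this
      constructor
      · rintro ⟨⟨hIC, hInd⟩, hID⟩
        have hIR : I ⊆ (T₀ : Set ℕ) ∪ {a, a'} := by
          intro x hx
          by_contra hcon
          exact Set.disjoint_left.1 hID hx ⟨hInd.subset_ground (Or.inl hx), hcon⟩
        refine ⟨hIR, ?_⟩
        have h1 : (I ∪ B \ (T₀ : Set ℕ)).encard ≤ B.encard := by
          rw [hBase.encard_eq_eRank]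
          exact hInd.encard_le_eRank
        have hIfin : I.Finite := (hEfin.subset hRE).subset hIR
        have hCfin : (B \ (T₀ : Set ℕ)).Finite := hBfin.subset Set.sdiff_subset
        have h2 : (I ∪ B \ (T₀ : Set ℕ)).ncard ≤ B.ncard := by
          rw [← (hIfin.union hCfin).cast_ncard_eq, ← hBfin.cast_ncard_eq] at h1
          exact_mod_cast h1
        rw [Set.ncard_union_eq hIC hIfin hCfin] at h2
        omega
      · rintro ⟨hIR, hIq⟩
        obtain ⟨J, hIJ, hJR, hJq⟩ := Set.exists_subsuperset_card_eq hIR hIq (by rw [hcardR]; omega)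
        have hJC : Disjoint J (B \ (T₀ : Set ℕ)) := hRC.mono_left hJR
        have hRfin : ((T₀ : Set ℕ) ∪ {a, a'}).Finite := hEfin.subset hRE
        -- the complement of `J` has two elements
        have hcomp : (((T₀ : Set ℕ) ∪ {a, a'}) \ J).ncard = 2 := by
          have := Set.ncard_sdiff_add_ncard_of_subset hJR hRfin
          omega
        obtain ⟨x, y, hxy, hxyeq⟩ := Set.ncard_eq_two.1 hcomp
        have hxm : x ∈ ((T₀ : Set ℕ) ∪ {a, a'}) \ J := by rw [hxyeq]; simp
        have hym : y ∈ ((T₀ : Set ℕ) ∪ {a, a'}) \ J := by rw [hxyeq]; simp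
        have hJeq : J = ((T₀ : Set ℕ) ∪ {a, a'}) \ {x, y} := by
          rw [← hxyeq, Set.sdiff_sdiff_right_self, Set.inter_eq_self_of_subset_right hJR]
        -- bases
        have one : ∀ t ∈ T₀, ∀ b c : ℕ, (b = a ∧ c = a') ∨ (b = a' ∧ c = a) →
            M.IsBase ((((T₀ : Set ℕ) ∪ {a, a'}) \ {b, t}) ∪ (B \ (T₀ : Set ℕ))) := by
          intro t ht b c hbc
          have htB : t ∈ B := hT₀B ht
          have hta := haT t (hT₀ ht)
          have h3 : M.IsBase ((B \ {t}) ∪ {c}) := by
            rcases hbc with ⟨-, rfl⟩ | ⟨-, rfl⟩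
            · exact base_one hLB hRep hm c t haE' haB' htB (hT t (hT₀ ht)).2.2
            · exact base_one hLB hRep hm c t haE haB htB (hT t (hT₀ ht)).2.1
          convert h3 using 1
          ext w
          simp only [Set.mem_union, Set.mem_sdiff, Set.mem_insert_iff, Set.mem_singleton_iff,
            Finset.mem_coe, not_or]
          constructor
          · rintro (⟨h4 | h4, h5, h6⟩ | ⟨h4, h5⟩)
            · exact Or.inl ⟨hT₀B h4, h6⟩
            · right
              rcases hbc with ⟨rfl, rfl⟩ | ⟨rfl, rfl⟩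
              · exact h4.resolve_left h5
              · exact h4.resolve_right h5
            · left
              exact ⟨h4, fun h => h5 (h ▸ ht)⟩
          · rintro (⟨h4, h5⟩ | rfl)
            · by_cases hw : w ∈ T₀
              · left
                refine ⟨Or.inl hw, ?_, h5⟩
                rintro rfl
                rcases hbc with ⟨rfl, -⟩ | ⟨rfl, -⟩
                · exact haB h4
                · exact haB' h4
              · exact Or.inr ⟨h4, hw⟩
            · left
              rcases hbc with ⟨rfl, rfl⟩ | ⟨rfl, rfl⟩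
              · exact ⟨Or.inr (Or.inr rfl), haa.symm, hta.2.symm⟩
              · exact ⟨Or.inr (Or.inl rfl), haa, hta.1.symm⟩
        have hJbase : M.IsBase (J ∪ (B \ (T₀ : Set ℕ))) := by
          rw [hJeq]
          rcases hxm.1 with hx | hx
          · rcases hym.1 with hy | hy
            · -- two sinks
              have h3 : L x y := hlink x hx y hy hxy
              simp only [hL] at h3
              convert h3 using 1
              ext w
              simp only [Set.mem_union, Set.mem_sdiff, Set.mem_insert_iff, Set.mem_singleton_iff,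
                Finset.mem_coe, not_or]
              constructor
              · rintro (⟨h4 | h4, h5, h6⟩ | ⟨h4, h5⟩)
                · exact Or.inl ⟨hT₀B h4, h5, h6⟩
                · exact Or.inr h4
                · exact Or.inl ⟨h4, fun h => h5 (h ▸ hx), fun h => h5 (h ▸ hy)⟩
              · rintro (⟨h4, h5, h6⟩ | h4)
                · by_cases hw : w ∈ T₀
                  · exact Or.inl ⟨Or.inl hw, h5, h6⟩
                  · exact Or.inr ⟨h4, hw⟩
                · left
                  refine ⟨Or.inr h4, ?_, ?_⟩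
                  · rintro rfl
                    rcases h4 with h4 | h4
                    · exact (haT w (hT₀ hx)).1 h4
                    · exact (haT w (hT₀ hx)).2 h4
                  · rintro rfl
                    rcases h4 with h4 | h4
                    · exact (haT w (hT₀ hy)).1 h4
                    · exact (haT w (hT₀ hy)).2 h4
            · -- `x` a sink, `y` one of `a, a'`
              rw [Set.pair_comm x y]
              rcases hy with rfl | hy
              · exact one x hx y a' (Or.inl ⟨rfl, rfl⟩)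
              · rw [Set.mem_singleton_iff] at hy
                subst hy
                exact one x hx y a (Or.inr ⟨rfl, rfl⟩)
          · rcases hym.1 with hy | hy
            · rcases hx with rfl | hx
              · exact one y hy x a' (Or.inl ⟨rfl, rfl⟩)
              · rw [Set.mem_singleton_iff] at hx
                subst hx
                exact one y hy x a (Or.inr ⟨rfl, rfl⟩)
            · -- both
              have hxyaa : ({x, y} : Set ℕ) = {a, a'} := by
                rcases hx with rfl | hx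
                · rcases hy with rfl | hy
                  · exact absurd rfl hxy
                  · rw [Set.mem_singleton_iff.1 hy]
                · rw [Set.mem_singleton_iff] at hx
                  subst hx
                  rcases hy with rfl | hy
                  · exact Set.pair_comm _ _
                  · exact absurd (Set.mem_singleton_iff.1 hy).symm hxy
              rw [hxyaa]
              convert hBase using 1
              ext w
              simp only [Set.mem_union, Set.mem_sdiff, Set.mem_insert_iff, Set.mem_singleton_iff,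
                Finset.mem_coe, not_or]
              constructor
              · rintro (⟨h4 | h4, h5, h6⟩ | ⟨h4, h5⟩)
                · exact hT₀B h4
                · rcases h4 with h4 | h4
                  · exact absurd h4 h5
                  · exact absurd h4 h6
                · exact h4
              · intro h4
                by_cases hw : w ∈ T₀
                · exact Or.inl ⟨Or.inl hw, fun h => haB (h ▸ h4), fun h => haB' (h ▸ h4)⟩
                · exact Or.inr ⟨h4, hw⟩
        refine ⟨⟨hJC.mono_left hIJ, hJbase.indep.subset (Set.union_subset_union_left _ hIJ)⟩, ?_⟩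
        rw [Set.disjoint_left]
        intro w hw hw2
        exact hw2.2 (hIR hw)
  -- (2) transitivity
  have step2 : ∀ t₁ ∈ T, ∀ t₂ ∈ T, ∀ t₃ ∈ T, t₁ ≠ t₃ → t₁ ≠ t₂ → t₂ ≠ t₃ → L t₁ t₃ →
      L t₁ t₂ ∨ L t₂ t₃ := by
    intro t₁ h1 t₂ h2 t₃ h3 h13 h12 h23 hl
    have hB' : M.IsBase ((B \ {t₂}) ∪ {a}) :=
      base_one hLB hRep hm a t₂ haE haB (hT t₂ h2).1 (hT t₂ h2).2.1
    have hmem : t₂ ∈ ((B \ {t₁, t₃}) ∪ {a, a'}) \ ((B \ {t₂}) ∪ {a}) := by
      refine ⟨Or.inl ⟨(hT t₂ h2).1, ?_⟩, ?_⟩
      · rintro (h | h)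
        · exact h12 h.symm
        · exact h23 h
      · rintro (⟨-, h⟩ | h)
        · exact h rfl
        · exact (haT t₂ h2).1 h
    obtain ⟨f, ⟨hf1, hf2⟩, hf3⟩ := hl.exchange hB' hmem
    have hf : f = t₁ ∨ f = t₃ := by
      rcases hf1 with ⟨h4, h5⟩ | h4
      · by_contra hcon
        push Not at hcon
        exact hf2 (Or.inl ⟨h4, fun h => by
          rcases h with h | h
          · exact hcon.1 h
          · exact hcon.2 h⟩)
      · exact absurd (Or.inr (Or.inl h4)) hf2
    rcases hf with rfl | rfl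
    · right
      simp only [hL]
      convert hf3 using 1
      ext w
      simp only [Set.mem_union, Set.mem_sdiff, Set.mem_insert_iff, Set.mem_singleton_iff, not_or]
      constructor
      · rintro (⟨h4, h5, h6⟩ | h4)
        · by_cases hw : w = f
          · exact Or.inl hw
          · exact Or.inr ⟨Or.inl ⟨h4, hw, h6⟩, h5⟩
        · right
          refine ⟨Or.inr h4, ?_⟩
          rintro rfl
          rcases h4 with h4 | h4
          · exact (haT w h2).1 h4
          · exact (haT w h2).2 h4
      · rintro (rfl | ⟨⟨h4, h5, h6⟩ | h4, h7⟩)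
        · exact Or.inl ⟨(hT w h1).1, h12, h13⟩
        · exact Or.inl ⟨h4, h7, h6⟩
        · exact Or.inr h4
    · left
      simp only [hL]
      convert hf3 using 1
      ext w
      simp only [Set.mem_union, Set.mem_sdiff, Set.mem_insert_iff, Set.mem_singleton_iff, not_or]
      constructor
      · rintro (⟨h4, h5, h6⟩ | h4)
        · by_cases hw : w = f
          · exact Or.inl hw
          · exact Or.inr ⟨Or.inl ⟨h4, h5, hw⟩, h6⟩
        · right
          refine ⟨Or.inr h4, ?_⟩
          rintro rfl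
          rcases h4 with h4 | h4
          · exact (haT w h2).1 h4
          · exact (haT w h2).2 h4
      · rintro (rfl | ⟨⟨h4, h5, h6⟩ | h4, h7⟩)
        · exact Or.inl ⟨(hT w h3).1, h13.symm, h23.symm⟩
        · exact Or.inl ⟨h4, h5, h7⟩
        · exact Or.inr h4
  -- (3) a maximal pairwise linked set
  obtain ⟨PL, hPL⟩ : ∃ PL : Finset ℕ → Prop,
      ∀ T₀, PL T₀ ↔ ∀ t ∈ T₀, ∀ t' ∈ T₀, t ≠ t' → L t t' := ⟨_, fun _ => Iff.rfl⟩
  have hex : ∃ T₀ ∈ T.powerset.filter PL, ∀ T₁ ∈ T.powerset.filter PL,
        T₁.card ≤ T₀.card := by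
    refine Finset.exists_max_image _ _ ⟨∅, ?_⟩
    rw [Finset.mem_filter, hPL]
    exact ⟨Finset.empty_mem_powerset _, by simp⟩
  obtain ⟨T₀, hT₀m, hT₀max⟩ := hex
  rw [Finset.mem_filter, Finset.mem_powerset, hPL] at hT₀m
  obtain ⟨hT₀T, hT₀L⟩ := hT₀m
  have hT₀card : T₀.card ≤ q - 1 := by
    by_contra hcon
    obtain ⟨T₁, hT₁, hT₁c⟩ := Finset.exists_subset_card_eq (show q ≤ T₀.card by omega)
    exact step1 T₁ (hT₁.trans hT₀T) (fun t ht t' ht' h => hT₀L t (hT₁ ht) t' (hT₁ ht') h) hT₁c
  have hcls : ∀ t ∈ T, ∃ t₀ ∈ T₀, t = t₀ ∨ ¬ L t t₀ := by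
    intro t ht
    by_contra hcon
    push Not at hcon
    have hnot : t ∉ T₀ := fun h => (hcon t h).1 rfl
    have h1 := hT₀max (insert t T₀) (by
      rw [Finset.mem_filter, Finset.mem_powerset, hPL]
      refine ⟨Finset.insert_subset ht hT₀T, ?_⟩
      intro u hu v hv huv
      rw [Finset.mem_insert] at hu hv
      rcases hu with rfl | hu
      · rcases hv with rfl | hv
        · exact absurd rfl huv
        · exact (hcon v hv).2
      · rcases hv with rfl | hv
        · exact hLsymm _ _ (hcon u hu).2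
        · exact hT₀L u hu v hv huv)
    rw [Finset.card_insert_of_notMem hnot] at h1
    omega
  have hcls' : ∀ t, ∃ t₀, t ∈ T → t₀ ∈ T₀ ∧ (t = t₀ ∨ ¬ L t t₀) := by
    intro t
    by_cases ht : t ∈ T
    · obtain ⟨t₀, h1, h2⟩ := hcls t ht
      exact ⟨t₀, fun _ => ⟨h1, h2⟩⟩
    · exact ⟨0, fun h => absurd h ht⟩
  choose f hf using hcls'
  have hbig : T₀.card * r < T.card :=
    lt_of_le_of_lt (Nat.mul_le_mul_right r hT₀card) hr
  obtain ⟨t₀, ht₀, hfib⟩ := Finset.exists_lt_card_fiber_of_mul_lt_card_of_maps_to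
    (fun t ht => (hf t ht).1) hbig
  set T' := T.filter (fun t => f t = t₀) with hT'
  have hT'T : T' ⊆ T := Finset.filter_subset _ _
  have hnl : ∀ t ∈ T', ∀ t' ∈ T', t ≠ t' → ¬ L t t' := by
    intro t ht t' ht' hne hl
    rw [hT', Finset.mem_filter] at ht ht'
    have h1 := (hf t ht.1).2
    have h2 := (hf t' ht'.1).2
    rw [ht.2] at h1
    rw [ht'.2] at h2
    rcases h1 with h1 | h1
    · rcases h2 with h2 | h2
      · exact hne (h1.trans h2.symm)
      · rw [h1] at hl
        exact h2 (hLsymm _ _ hl)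
    · rcases h2 with h2 | h2
      · rw [h2] at hl
        exact h1 hl
      · have n1 : t ≠ t₀ := by
          rintro rfl
          exact h2 (hLsymm _ _ hl)
        have n2 : t₀ ≠ t' := by
          rintro rfl
          exact h1 hl
        rcases step2 t ht.1 t₀ (hT₀T ht₀) t' ht'.1 hne n1 n2 hl with h3 | h3
        · exact h1 h3
        · exact h2 (hLsymm _ _ h3)
  have hT'ne : T'.Nonempty := by
    rw [← Finset.card_pos]
    omega
  -- Menger
  have hnoLnk : ¬ Lnk (F.D m) 2 {Sum.inl a, Sum.inl a'} (Sum.inl '' (T' : Set ℕ)) := by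
    rintro ⟨x, y, S, h1, h2⟩
    obtain ⟨hxi, hyi⟩ := lnk_inj (fun i => (h1 i).2.2) h2
    obtain ⟨t, ht, hty⟩ := (h1 0).2.1
    obtain ⟨t', ht', hty'⟩ := (h1 1).2.1
    have hne : t ≠ t' := by
      rintro rfl
      have := hyi (hty.symm.trans hty')
      exact absurd this (by decide)
    apply hnl t ht t' ht' hne
    simp only [hL]
    rw [base_iff hLB hRep hm {a, a'} {t, t'}]
    · rw [Set.ncard_pair haa, Set.image_pair, Set.image_pair]
      refine ⟨x, y, S, fun i => ⟨(h1 i).1, ?_, (h1 i).2.2⟩, h2⟩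
      fin_cases i
      · exact Or.inl hty.symm
      · exact Or.inr hty'.symm
    · rintro w (rfl | rfl)
      · exact ⟨haE, haB⟩
      · exact ⟨haE', haB'⟩
    · rintro w (rfl | rfl)
      · exact (hT w (hT'T ht)).1
      · exact (hT w (hT'T ht')).1
    · rw [Set.ncard_pair haa, Set.ncard_pair hne]
  have hsep : ∃ S : Finset Vx, Sep (F.D m) (S : Set Vx) {Sum.inl a, Sum.inl a'}
      (Sum.inl '' (T' : Set ℕ)) ∧ S.card < 2 := by
    by_contra hcon
    push Not at hcon
    apply hnoLnk
    refine hMEN Vx (F.D m) F.uni F.uni_finite (fun u v h => D_uni h) _ _ ?_ ?_ 2 hcon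
    · rintro w (rfl | rfl)
      · exact Or.inr ⟨a, haE, rfl⟩
      · exact Or.inr ⟨a', haE', rfl⟩
    · rintro w ⟨t, ht, rfl⟩
      exact Or.inr ⟨t, by exact_mod_cast base_subset (hT t (hT'T ht)).1, rfl⟩
  obtain ⟨S, hS, hScard⟩ := hsep
  obtain ⟨t₁, ht₁⟩ := hT'ne
  obtain ⟨z, hz, -⟩ := hS.exists_mem (x := Sum.inl a) (y := Sum.inl t₁) (Or.inl rfl)
    ⟨t₁, ht₁, rfl⟩ (hT t₁ (hT'T ht₁)).2.1
  have hSz : (S : Set Vx) ⊆ {z} := by
    intro w hw
    have h3 := Finset.card_le_one.1 (show S.card ≤ 1 by omega)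
    exact h3 w hw z hz
  refine ⟨z, T', hT'T, hfib, fun t ht => ?_⟩
  exact hS.mono hSz subset_rfl (by
    rintro w hw
    rw [Set.mem_singleton_iff] at hw
    exact ⟨t, ht, hw.symm⟩)

end Pool.Agent.H59.GW.CLO
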