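import Pool.Agent.H55.GW.Targets1

/-!
# No single vertex separates a vertex of class `P` from the sinks (module FAN of S10293)
-/

set_option autoImplicit false

namespace Pool.Agent.H59.GW.FAN

open Pool.Agent.H55.GW Pool.Agent.H55.GW.Frame

/-- a walk which must pass `z` enters `z` through an arc -/
theorem enter_arc {W : Type} {D : W → W → Prop} {S : Set W} {x t z : W} (h : RIn D S x t)
    (hxz : x ≠ z) (hno : ¬ RIn D {z}ᶜ x t) :
    z ∈ S ∧ ∃ w ∈ S, RIn D S x w ∧ D w z := by
  rcases h.avoid_or {z} with h1 | ⟨z', hz', h1, h2⟩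
  · exact absurd (h1.mono_set fun v hv => hv.2) hno
  · rw [Set.mem_singleton_iff] at hz'
    subst hz'
    have hz : z' ∈ S := h2.left_mem
    have hsub : (S \ {z'}) ∪ {z'} ⊆ S := by
      rintro v (hv | hv)
      · exact hv.1
      · rw [Set.mem_singleton_iff.1 hv]; exact hz
    refine ⟨hz, ?_⟩
    rcases h1.cases_tail with h3 | ⟨w, h3, h4⟩
    · exact absurd h3 hxz
    · exact ⟨w, hsub h3.right_mem, h3.mono_set hsub, h4⟩

theorem fan (h0 : T_R0) (h1 : T_R1) (h2 : T_R2) : T_FAN := by
  intro M B R F m col hmin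
  obtain ⟨hrig, hmin'⟩ := hmin
  have hm : F.IsPM m := hrig.pm
  have hns : ¬ Smaller M B R F := by
    rintro ⟨F', m', col', hr', hlt⟩
    rcases hmin' F' m' col' hr' with h | h
    · exact absurd h (by omega)
    · omega
  have reachP : ∀ p ∈ F.V, F.isP p → ∃ t ∈ F.snk m, RIn (F.D m) Set.univ (Sum.inr p) t := by
    intro p hp hP
    by_contra hcon
    push Not at hcon
    exact hns (h0 M B R F m col hrig p hp hP hcon)
  have reach : ∀ v ∈ F.V, ∃ t ∈ F.snk m, RIn (F.D m) Set.univ (Sum.inr v) t := by
    intro v hv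
    by_cases hP : F.isP v
    · exact reachP v hv hP
    · have hD := D_mate_Q hm hv hP
      rcases hm.cases hv with ⟨e, he, h3⟩ | ⟨u, hu, huV, h3, h4, h5⟩
      · rw [he] at hD
        exact ⟨Sum.inl e, ⟨e, hD.2, rfl⟩, RIn.single hD trivial trivial⟩
      · rw [hu] at hD
        have hPu : F.isP u := by
          by_contra hcon
          exact hP (h4.2 hcon)
        obtain ⟨t, ht, hr⟩ := reachP u huV hPu
        exact ⟨t, ht, RIn.head hD trivial hr⟩
  intro p hp hP
  -- key consequence of R1
  have K : ∀ q ∈ F.V, ¬ F.isP q → ¬ Sep (F.D m) {Sum.inr q} {Sum.inr p} (F.snk m) :=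
    fun q hq hQ hS => hns (h1 M B R F m col hrig p hp hP (reachP p hp hP) q hq hQ hS)
  -- separation by a vertex of class `P`
  have KP : ∀ v : ℕ, F.isP v → v ≠ p →
      (∀ t ∈ F.snk m, ¬ RIn (F.D m) {(Sum.inr v : Vx)}ᶜ (Sum.inr p) t) → False := by
    intro v hv hvp hno
    have hne : (Sum.inr p : Vx) ≠ Sum.inr v := fun h => hvp (Sum.inr.inj h).symm
    obtain ⟨t, ht, hr⟩ := reachP p hp hP
    obtain ⟨-, w, -, hw1, hw2⟩ := enter_arc hr hne (hno t ht)
    have hvV : v ∈ F.V := by
      rcases (D_uni hw2).2 with ⟨v', hv', e⟩ | ⟨e', -, e⟩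
      · rw [Sum.inr.inj e]; exact hv'
      · exact absurd e (by simp)
    have hwm := in_P hm hv hw2
    rcases hm.cases hvV with ⟨e, he, h3⟩ | ⟨u, hu, huV, h3, h4, h5⟩
    · -- a source
      rw [hwm, he] at hw1
      rcases hw1.cases_tail with h6 | ⟨w', -, h6⟩
      · exact absurd h6 (by simp)
      · rw [hwm, he] at hw2
        exact no_in_src hw2.2 w' h6
    · have hQu : ¬ F.isP u := fun h => (h4.1 hv) h
      refine K u huV hQu ?_
      intro x hx t' ht' hr'
      rw [Set.mem_singleton_iff] at hx
      subst hx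
      obtain ⟨-, w', hw'S, -, hw'2⟩ := enter_arc hr' hne (hno t' ht')
      rw [in_P hm hv hw'2, hu] at hw'S
      exact hw'S rfl
  by_contra hcon
  push Not at hcon
  obtain ⟨hexc, z, hz, hno⟩ := hcon
  obtain ⟨t, ht, hr⟩ := reachP p hp hP
  obtain ⟨-, w, -, hw1, hw2⟩ := enter_arc hr hz.symm (hno t ht)
  rcases z with e | v
  · -- a real element
    rcases w with e' | v
    · exact hw2
    obtain ⟨hatt, hbase⟩ := hw2
    have hvV : v ∈ F.V := att_V hatt
    -- every walk from `p` to a sink passes `v`
    have pass : ∀ t ∈ F.snk m, Sum.inr p ≠ (Sum.inr v : Vx) →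
        ¬ RIn (F.D m) {(Sum.inr v : Vx)}ᶜ (Sum.inr p) t := by
      intro t' ht' _ hr'
      obtain ⟨-, w', hw'S, -, hw'2⟩ := enter_arc hr' hz.symm (hno t' ht')
      rcases w' with e' | v'
      · exact hw'2
      · have : v' = v := F.att_uniq e v' v hw'2.1 hatt
        rw [this] at hw'S
        exact hw'S rfl
    by_cases hvp : v = p
    · subst hvp
      rcases hm.cases hvV with ⟨e₁, he₁, h3⟩ | ⟨q, hq, -⟩
      · have hee : e₁ ≠ e := by
          rintro rfl
          exact ((mem_base_iff hatt).1 hbase).1 hP he₁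
        have hnb : e₁ ∉ F.base m := fun h => ((mem_base_iff h3).1 h).1 hP he₁
        apply hexc
        refine ⟨fun u => ⟨fun hadj => ?_, fun hadj => adj_notP hadj hP⟩, e, e₁, hee.symm, hatt, h3,
          fun e'' he'' => ?_⟩
        · have hD : F.D m (Sum.inr v) (Sum.inr u) := Or.inl ⟨hadj, by rw [he₁]; simp⟩
          have huV := adj_right hadj
          have huQ := adj_notP hadj
          obtain ⟨t', ht', hr'⟩ := reach u huV
          have hav : RIn (F.D m) {(Sum.inl e : Vx)}ᶜ (Sum.inr u) t' := by
            by_contra hcon'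
            obtain ⟨-, w', -, hw'1, hw'2⟩ := enter_arc hr' (by simp) hcon'
            rcases w' with e' | v'
            · exact hw'2
            have hv' : v' = v := F.att_uniq e v' v hw'2.1 hatt
            rw [hv'] at hw'1
            rcases hw'1.cases_tail with h6 | ⟨w₂, h6, h7⟩
            · rw [Sum.inr.inj h6] at huQ
              exact huQ hP
            · rw [in_P hm hP h7, he₁] at h6
              rcases h6.cases_tail with h8 | ⟨w₃, -, h8⟩
              · exact absurd h8 (by simp)
              · exact no_in_src hnb w₃ h8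
          exact hno t' ht' (RIn.head hD (by simp) hav)
        · by_contra hcon'
          push Not at hcon'
          have hb'' : e'' ∈ F.base m := by
            rw [mem_base_iff he'']
            refine ⟨fun _ => ?_, fun _ => hP⟩
            rw [he₁]
            intro h
            exact hcon'.2 (Sum.inl.inj h).symm
          refine hno (Sum.inl e'') ⟨e'', hb'', rfl⟩ (RIn.single ⟨he'', hb''⟩ (by simp) ?_)
          intro h
          exact hcon'.1 (Sum.inl.inj h)
      · refine hns (h2 M B R F m col hrig v hp hP q hq e hbase hatt ?_)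
        intro x hx t' ht' hr'
        rw [Set.mem_singleton_iff] at hx
        subst hx
        exact hno t' ht' hr'
    · have hne : (Sum.inr p : Vx) ≠ Sum.inr v := fun h => hvp (Sum.inr.inj h).symm
      by_cases hPv : F.isP v
      · exact KP v hPv hvp fun t ht => pass t ht hne
      · refine K v hvV hPv ?_
        intro x hx t' ht' hr'
        rw [Set.mem_singleton_iff] at hx
        subst hx
        exact pass t' ht' hne hr'
  · have hvp : v ≠ p := fun h => hz (by rw [h])
    by_cases hPv : F.isP v
    · exact KP v hPv hvp hno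
    · have hvV : v ∈ F.V := by
        rcases (D_uni hw2).2 with ⟨v', hv', e⟩ | ⟨e', -, e⟩
        · rw [Sum.inr.inj e]; exact hv'
        · exact absurd e (by simp)
      refine K v hvV hPv ?_
      intro x hx t' ht' hr'
      rw [Set.mem_singleton_iff] at hx
      subst hx
      exact hno t' ht' hr'

end Pool.Agent.H59.GW.FAN
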