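import Pool.Agent.H55.GW.Targets2

/-!
# ISO: an induced path of reachabilities gives a comb in another base
-/

set_option autoImplicit false

namespace Pool.Agent.H59.GW.ISO

open Pool.Agent.H55.GW Pool.Agent.H55.GW.Frame

variable {W : Type} {D D' : W → W → Prop} {S A : Set W} {x y : W}

/-- a walk runs inside the set of vertices between its ends -/
theorem between (h : RIn D S x y) : RIn D {w | RIn D S x w ∧ RIn D S w y} x y := by
  obtain ⟨h1, h2⟩ := h
  induction h2 using Relation.ReflTransGen.head_induction_on with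
  | refl => exact RIn.refl ⟨RIn.refl h1, RIn.refl h1⟩
  | @head a b h3 h4 ih =>
    have h5 : RIn D S b y := ⟨h3.2, h4⟩
    have h6 : RIn D S a y := RIn.head h3.1 h1 h5
    refine RIn.head h3.1 ⟨RIn.refl h1, h6⟩ ((ih h3.2).mono_set ?_)
    rintro w ⟨hw1, hw2⟩
    exact ⟨RIn.head h3.1 h1 hw1, hw2⟩

/-- the set of vertices reaching `y` inside `A` -/
theorem reach_in {u : W} (h : RIn D A u y) : RIn D {x | RIn D A x y} u y := by
  have h1 := between h
  exact h1.mono_set fun w hw => hw.2

theorem insert_head (h : RIn D (insert x A) x y) (hne : y ≠ x) :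
    ∃ z ∈ A, D x z ∧ RIn D A z y := by
  have key : y = x ∨ ∃ z ∈ A, D x z ∧ RIn D A z y := by
    refine h.induct (p := fun y => y = x ∨ ∃ z ∈ A, D x z ∧ RIn D A z y) (Or.inl rfl) ?_
    intro u v hu hv huv hp
    by_cases hvx : v = x
    · exact Or.inl hvx
    · right
      have hvA : v ∈ A := by
        rcases hv with hv | hv
        · exact absurd hv hvx
        · exact hv
      rcases hp with rfl | ⟨z, hz, h1, h2⟩
      · exact ⟨v, hvA, huv, RIn.refl hvA⟩
      · exact ⟨z, hz, h1, h2.tail huv hvA⟩
  rcases key with h | h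
  · exact absurd h hne
  · exact h

/-- the walk may be assumed to run inside the vertices reaching the end -/
theorem step_in (h : RIn D (insert x A) x y) :
    RIn D (insert x {z | RIn D A z y}) x y := by
  by_cases hne : y = x
  · subst hne
    exact RIn.refl (Or.inl rfl)
  · obtain ⟨z, -, h1, h2⟩ := insert_head h hne
    exact RIn.head h1 (Or.inl rfl) ((reach_in h2).mono_set fun w hw => Or.inr hw)

/-- walking backwards along a list -/
theorem rev_list (L : List W) (h : W) (hD : ∀ u v, Nxt (h :: L) u v → D' v u) :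
    ∀ w ∈ h :: L, RIn D' {z | z ∈ h :: L} w h := by
  induction L generalizing h with
  | nil =>
    intro w hw
    have : w = h := by simpa using hw
    subst this
    exact RIn.refl (by simp)
  | cons a L ih =>
    intro w hw
    rcases List.mem_cons.1 hw with rfl | hw
    · exact RIn.refl (by simp)
    · have h1 := ih a (fun u v ⟨l₁, l₂, hl⟩ => hD u v ⟨h :: l₁, l₂, by rw [hl]; rfl⟩) w hw
      refine (h1.mono_set (T := {z | z ∈ h :: a :: L})
        fun z hz => List.mem_cons_of_mem _ hz).tail (hD h a ⟨[], L, rfl⟩) (by simp)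

theorem nxt_mem {l : List W} {u v : W} (h : Nxt l u v) : u ∈ l ∧ v ∈ l := by
  obtain ⟨l₁, l₂, rfl⟩ := h
  simp

/-- in a path split at `u`: backwards from the second part to `u` -/
theorem rev_right {l p s : List W} {u : W} (hl : l = p ++ u :: s)
    (hD : ∀ u v, Nxt l u v → D' v u) : ∀ w ∈ u :: s, RIn D' {z | z ∈ u :: s} w u := by
  refine rev_list s u fun a b ⟨l₁, l₂, h⟩ => hD a b ⟨p ++ l₁, l₂, ?_⟩
  rw [hl, h, List.append_assoc]

/-- backwards inside the first part to the start -/
theorem rev_left {l p s : List W} {u : W} (hl : l = p ++ u :: s) (hx : l.head? = some x)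
    (hD : ∀ u v, Nxt l u v → D' v u) : ∀ w ∈ p, RIn D' {z | z ∈ p} w x := by
  cases p with
  | nil => simp
  | cons a p =>
    have ha : a = x := by
      rw [hl] at hx
      simpa using hx
    subst ha
    refine rev_list p a fun c b ⟨l₁, l₂, h⟩ => hD c b ⟨l₁, l₂ ++ u :: s, ?_⟩
    rw [hl, h]
    simp

theorem rev_from {l p s : List W} {u : W} (hl : l = p ++ u :: s) (hx : l.head? = some x)
    (hD : ∀ u v, Nxt l u v → D' v u) : RIn D' (insert u {z | z ∈ p}) u x := by
  cases p with
  | nil =>
    have ha : u = x := by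
      rw [hl] at hx
      simpa using hx
    subst ha
    exact RIn.refl (Or.inl rfl)
  | cons a p =>
    have ha : a = x := by
      rw [hl] at hx
      simpa using hx
    subst ha
    have h1 := rev_list (D' := D') (p ++ [u]) a (fun c b ⟨l₁, l₂, h⟩ => hD c b ⟨l₁, l₂ ++ s, by
      rw [hl]
      have : a :: p ++ u :: s = (a :: (p ++ [u])) ++ s := by simp
      rw [this, h]
      simp⟩) u (by simp)
    refine h1.mono_set ?_
    intro z hz
    have hz' : z = a ∨ z ∈ p ∨ z = u := by simpa using hz
    rcases hz' with h | h | h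
    · exact Or.inr (by simp [h])
    · exact Or.inr (by simp [h])
    · exact Or.inl h

/-- a path split at `u`: the part before reaches `u` -/
theorem split_before {l p s : List W} {u w z : W} (hl : l = p ++ u :: s) (hc : l.IsChain D)
    (hw : w ∈ p) (hz : z = u) : RIn D {v | v ∈ l} w z := by
  subst hz
  obtain ⟨p₁, p₂, rfl⟩ := List.append_of_mem hw
  have key : ∀ (L : List W) (a : W), (a :: (L ++ z :: s)).IsChain D →
      RIn D {v | v ∈ a :: (L ++ z :: s)} a z := by
    intro L
    induction L with
    | nil =>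
      intro a ha
      have := (List.isChain_cons_cons.1 ha).1
      exact RIn.single this (by simp) (by simp)
    | cons b L ih =>
      intro a ha
      have h1 := List.isChain_cons_cons.1 ha
      exact RIn.head h1.1 (by simp) ((ih b h1.2).mono_set fun v hv => List.mem_cons_of_mem _ hv)
  have hl' : l = p₁ ++ (w :: (p₂ ++ z :: s)) := by rw [hl]; simp
  have hc' : (w :: (p₂ ++ z :: s)).IsChain D := by
    rw [hl'] at hc
    exact List.IsChain.right_of_append hc
  refine (key p₂ w hc').mono_set ?_
  intro v hv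
  change v ∈ l
  rw [hl']
  exact List.mem_append_right _ hv

theorem iso (exc : T_EXC) : T_ISO := by
  classical
  intro F m hm H n a b hab hne hR hn
  have hlt : n - 1 < n := by omega
  by_cases hn1 : n = 1
  · subst hn1
    refine ⟨m, a 0, fun _ => Sum.inl 0, fun _ => Sum.inl 0, fun _ => ∅, fun _ => ∅, hm,
      (hab 0 hn).1, (hab 0 hn).2.1, ?_⟩
    constructor <;> intro i <;> intros <;> omega
  -- the paths
  have hP : ∀ i, ∃ l : List Vx, i < n → IsPath (F.D m) l (Sum.inl (a i)) (Sum.inl (b i)) ∧
      ∀ v ∈ l, v ∈ Hᶜ := by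
    intro i
    by_cases hi : i < n
    · obtain ⟨l, h1, h2⟩ := ((hR i hi i hi).2 (Or.inl rfl)).exists_path
      exact ⟨l, fun _ => ⟨h1, h2⟩⟩
    · exact ⟨[], fun h => absurd h hi⟩
  choose l hl using hP
  have hsrc : ∀ i < n, ∀ v ∈ l i, RIn (F.D m) Hᶜ (Sum.inl (a i)) v := fun i hi v hv =>
    ((hl i hi).1.rIn_left hv).mono_set (hl i hi).2
  have hsnk : ∀ i < n, ∀ v ∈ l i, RIn (F.D m) Hᶜ v (Sum.inl (b i)) := by
    intro i hi v hv
    obtain ⟨p, s, hps⟩ := List.append_of_mem hv
    have hmem : (Sum.inl (b i) : Vx) ∈ v :: s := by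
      have h1 := (hl i hi).1.2.2.2
      rw [hps, List.getLast?_append_of_ne_nil _ (by simp)] at h1
      exact List.mem_of_getLast? h1
    have hc : (v :: s).IsChain (F.D m) := by
      have h1 := (hl i hi).1.1
      rw [hps] at h1
      exact List.IsChain.right_of_append h1
    have hnd : (v :: s).Nodup := by
      have h1 := (hl i hi).1.2.1
      rw [hps] at h1
      exact (List.nodup_append.1 h1).2.1
    have hlast : (v :: s).getLast? = some (Sum.inl (b i)) := by
      have h1 := (hl i hi).1.2.2.2
      rwa [hps, List.getLast?_append_of_ne_nil _ (by simp)] at h1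
    have hpath : IsPath (F.D m) (v :: s) v (Sum.inl (b i)) := ⟨hc, hnd, rfl, hlast⟩
    refine hpath.rIn.mono_set ?_
    intro w hw
    refine (hl i hi).2 w ?_
    rw [hps]
    exact List.mem_append_right _ hw
  -- disjointness
  have hdis : ∀ i < n, ∀ j < n, i ≠ j → ∀ x ∈ l i, x ∉ l j := by
    intro i hi j hj hij x hx hx'
    have h1 := (hR i hi j hj).1 ((hsrc i hi x hx).trans (hsnk j hj x hx'))
    have h2 := (hR j hj i hi).1 ((hsrc j hj x hx').trans (hsnk i hi x hx))
    omega
  -- the walks Theta
  let Th : ℕ → Set Vx := fun i => {w | RIn (F.D m) Hᶜ (Sum.inl (a (i + 1))) w ∧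
    RIn (F.D m) Hᶜ w (Sum.inl (b i))}
  have hTh : ∀ i, i + 1 < n → RIn (F.D m) (Th i) (Sum.inl (a (i + 1))) (Sum.inl (b i)) :=
    fun i hi => between ((hR (i + 1) hi i (by omega)).2 (Or.inr rfl))
  have hThl : ∀ i, i + 1 < n → ∀ j < n, ∀ x ∈ Th i, x ∈ l j → j = i ∨ j = i + 1 := by
    intro i hi j hj x hx hx'
    have h1 := (hR (i + 1) hi j hj).1 (hx.1.trans (hsnk j hj x hx'))
    omega
  have hThTh : ∀ i, i + 1 < n → ∀ j, j + 1 < n → i ≠ j → ∀ x ∈ Th i, x ∉ Th j := by
    intro i hi j hj hij x hx hx'
    have h1 := (hR (i + 1) hi j (by omega)).1 (hx.1.trans hx'.2)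
    have h2 := (hR (j + 1) hj i (by omega)).1 (hx'.1.trans hx.2)
    omega
  -- the parts of Theta strictly between the last vertex on l (i+1) and the first one on l i
  let Mid : ℕ → Set Vx := fun i => {w | w ∈ Th i ∧ w ∉ l (i + 1) ∧ w ∉ l i}
  have hUW : ∀ i, ∃ u w : Vx, i + 1 < n → u ∈ l (i + 1) ∧ u ∈ Th i ∧ w ∈ l i ∧ w ∈ Th i ∧
      RIn (F.D m) (insert u (insert w (Mid i))) u w := by
    intro i
    by_cases hi : i + 1 < n
    · have h1 := hTh i hi
      obtain ⟨u, hu, h2, h3⟩ := h1.last (T := {w | w ∈ l (i + 1)}) (hl (i + 1) hi).1.mem_left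
      have hul : u ∉ l i := fun h => hdis i (by omega) (i + 1) hi (by omega) u h hu
      obtain ⟨w, hw, h4, h5⟩ := h3.first (T := {w | w ∈ l i}) (hl i (by omega)).1.mem_right
      have hwT : w ∈ Th i := by
        rcases h5.left_mem with h | h
        · exact h.1
        · rw [h]
          exact h2.right_mem
      refine ⟨u, w, fun _ => ⟨hu, h2.right_mem, hw, hwT, h4.mono_set ?_⟩⟩
      rintro v (⟨hv1 | hv1, hv2⟩ | hv)
      · exact Or.inr (Or.inr ⟨hv1.1, hv1.2, hv2⟩)
      · exact Or.inl hv1
      · exact Or.inr (Or.inl hv)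
    · exact ⟨Sum.inl 0, Sum.inl 0, fun h => absurd h hi⟩
  choose u w huw using hUW
  -- splitting of the path l (i+1) at u i
  have hsp : ∀ i, ∃ p s : List Vx, i + 1 < n → l (i + 1) = p ++ u i :: s := by
    intro i
    by_cases hi : i + 1 < n
    · obtain ⟨p, s, h⟩ := List.append_of_mem (huw i hi).1
      exact ⟨p, s, fun _ => h⟩
    · exact ⟨[], [], fun h => absurd h hi⟩
  choose p s hps using hsp
  -- w (i+1) lies in the second part of l (i+1)
  have hwq : ∀ i, i + 2 < n → w (i + 1) ∈ u i :: s i := by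
    intro i hi
    obtain ⟨-, -, h1, h2, -⟩ := huw (i + 1) hi
    rw [hps i (by omega)] at h1
    rcases List.mem_append.1 h1 with h3 | h3
    · exfalso
      have h4 := (split_before (hps i (by omega)) (hl (i + 1) (by omega)).1.1 h3
        rfl).mono_set (hl (i + 1) (by omega)).2
      have h5 : RIn (F.D m) Hᶜ (Sum.inl (a (i + 1 + 1))) (Sum.inl (b i)) :=
        (h2.1.trans h4).trans (huw i (by omega)).2.1.2
      have := (hR (i + 1 + 1) (by omega) i (by omega)).1 h5
      omega
    · exact h3
  -- the exchange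
  obtain ⟨m', hm', hbase, hD'⟩ := exc F m hm n (fun i => l i) (fun i => a i) (fun i => b i)
    (fun i => (hl i i.2).1) (fun i => hab i i.2)
    (fun i j hij => hdis i i.2 j j.2 (fun h => hij (Fin.ext h)))
  have hrev : ∀ i < n, ∀ x y, Nxt (l i) x y → F.D m' y x := fun i hi x y h =>
    (hD' y x).2 (Or.inr ⟨⟨i, hi⟩, h⟩)
  -- the sets
  let A : ℕ → Set Vx := fun k => {x | x ∈ u (n - 2 - k) :: s (n - 2 - k) ∨
    (0 < k ∧ x ∈ Mid (n - 1 - k))}
  let v : ℕ → Vx := fun k => u (n - 2 - k)
  have hAcases : ∀ k < n - 1, ∀ x ∈ A k, (x ∈ l (n - 1 - k) ∧ x ∉ p (n - 2 - k)) ∨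
      (0 < k ∧ x ∈ Th (n - 1 - k) ∧ ∀ j < n, x ∉ l j) := by
    intro k hk x hx
    have e1 : n - 1 - k = n - 2 - k + 1 := by omega
    rcases hx with hx | ⟨h0, hx⟩
    · left
      have h1 := hps (n - 2 - k) (by omega)
      refine ⟨?_, ?_⟩
      · rw [e1, h1]
        exact List.mem_append_right _ hx
      · intro hxp
        have h2 := (hl (n - 2 - k + 1) (by omega)).1.2.1
        rw [h1] at h2
        exact (List.nodup_append.1 h2).2.2 x hxp x hx rfl
    · right
      refine ⟨h0, hx.1, ?_⟩
      intro j hj hxj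
      rcases hThl (n - 1 - k) (by omega) j hj x hx.1 hxj with h | h
      · rw [h] at hxj
        exact hx.2.2 hxj
      · rw [h] at hxj
        exact hx.2.1 hxj
  have hsub : ∀ k, {x | RIn (F.D m') (A k) x (v k)} ⊆ A k := fun k x hx => hx.left_mem
  have hvA : ∀ k, v k ∈ A k := fun k => Or.inl List.mem_cons_self
  have hPl : ∀ k < n - 1, ∀ x ∈ p (n - 2 - k), x ∈ l (n - 1 - k) := by
    intro k hk x hx
    have e1 : n - 1 - k = n - 2 - k + 1 := by omega
    rw [e1, hps (n - 2 - k) (by omega)]
    exact List.mem_append_left _ hx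
  refine ⟨m', b (n - 1), v, fun k => Sum.inl (a (n - 1 - k)),
    fun k => {x | RIn (F.D m') (A k) x (v k)}, fun k => {x | x ∈ p (n - 2 - k)}, hm',
    by simpa using base_subset (hab (n - 1) hlt).2.2, ?_, ?_⟩
  · rw [hbase]
    rintro (⟨-, h⟩ | ⟨i, h⟩)
    · exact h ⟨⟨n - 1, hlt⟩, rfl⟩
    · refine (hab i i.2).2.1 ?_
      change a i = b (n - 1) at h
      rw [h]
      exact (hab (n - 1) hlt).2.2
  constructor
  · -- start
    intro _
    refine reach_in ?_
    have hmem : (Sum.inl (b (n - 1)) : Vx) ∈ u (n - 2) :: s (n - 2) := by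
      have h1 := (hl (n - 1) hlt).1.2.2.2
      have e1 : n - 1 = n - 2 + 1 := by omega
      have h2 := hps (n - 2) (by omega)
      rw [← e1] at h2
      rw [h2, List.getLast?_append_of_ne_nil _ (by simp)] at h1
      exact List.mem_of_getLast? h1
    have h2 := rev_right (D' := F.D m') (hps (n - 2) (by omega))
      (hrev (n - 2 + 1) (by omega)) _ hmem
    exact h2.mono_set fun z hz => Or.inl hz
  · -- step
    intro k hk
    refine step_in ?_
    obtain ⟨h1, h2, h3, h4, h5⟩ := huw (n - 2 - k) (by omega)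
    have e2 : n - 1 - (k + 1) = n - 2 - k := by omega
    have e3 : n - 2 - k = n - 2 - (k + 1) + 1 := by omega
    have h6 : RIn (F.D m') (insert (v k) (A (k + 1))) (v k) (w (n - 2 - k)) := by
      refine h5.mono ?_ ?_
      · intro x y hxy hx hy
        refine (hD' x y).2 (Or.inl ⟨hxy, ?_⟩)
        rintro ⟨⟨j, hj⟩, hN⟩
        obtain ⟨hxl, hyl⟩ := nxt_mem hN
        change x ∈ l j at hxl
        change y ∈ l j at hyl
        have hmid : ∀ z ∈ Mid (n - 2 - k), z ∉ l j := by
          intro z hz hzj
          rcases hThl (n - 2 - k) (by omega) j hj z hz.1 hzj with h | h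
          · rw [h] at hzj
            exact hz.2.2 hzj
          · rw [h] at hzj
            exact hz.2.1 hzj
        have hu : u (n - 2 - k) ∈ l j → j = n - 2 - k + 1 := by
          intro h
          by_contra hne'
          exact hdis j hj (n - 2 - k + 1) (by omega) hne' _ h h1
        have hw' : w (n - 2 - k) ∈ l j → j = n - 2 - k := by
          intro h
          by_contra hne'
          exact hdis j hj (n - 2 - k) (by omega) hne' _ h h3
        rcases hx with rfl | rfl | hx
        · rcases hy with rfl | rfl | hy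
          · exact D_asymm hm hxy hxy
          · have := hu hxl
            have := hw' hyl
            omega
          · exact hmid _ hy hyl
        · rcases hy with rfl | rfl | hy
          · have := hw' hxl
            have := hu hyl
            omega
          · exact D_asymm hm hxy hxy
          · exact hmid _ hy hyl
        · exact hmid _ hx hxl
      · rintro x (hx | hx | hx)
        · exact Or.inl hx
        · right
          left
          rw [hx]
          have := hwq (n - 2 - (k + 1)) (by omega)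
          rwa [← e3] at this
        · right
          right
          refine ⟨by omega, ?_⟩
          rw [e2]
          exact hx
    have h7 : RIn (F.D m') (A (k + 1)) (w (n - 2 - k)) (v (k + 1)) := by
      have h8 := hwq (n - 2 - (k + 1)) (by omega)
      rw [← e3] at h8
      have h9 := rev_right (D' := F.D m') (hps (n - 2 - (k + 1)) (by omega))
        (hrev (n - 2 - (k + 1) + 1) (by omega)) _ h8
      exact h9.mono_set fun z hz => Or.inl hz
    exact h6.trans (h7.mono_set fun z hz => Or.inr hz)
  · -- mem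
    intro k _
    exact RIn.refl (hvA k)
  · -- seg
    intro k _ x hx
    exact reach_in hx
  · -- ex
    intro k hk
    have e1 : n - 1 - k = n - 2 - k + 1 := by omega
    refine ⟨⟨a (n - 1 - k), ?_, rfl⟩, ?_⟩
    · rw [hbase]
      exact Or.inr ⟨⟨n - 1 - k, by omega⟩, rfl⟩
    · rw [e1]
      exact rev_from (D' := F.D m') (hps (n - 2 - k) (by omega))
        (hl (n - 2 - k + 1) (by omega)).1.2.2.1 (hrev (n - 2 - k + 1) (by omega))
  · -- exr
    intro k hk x hx
    have e1 : n - 1 - k = n - 2 - k + 1 := by omega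
    rw [e1]
    exact rev_left (D' := F.D m') (hps (n - 2 - k) (by omega))
      (hl (n - 2 - k + 1) (by omega)).1.2.2.1 (hrev (n - 2 - k + 1) (by omega)) x hx
  · -- dSeg
    intro i hi j hj hij
    refine Set.disjoint_left.2 fun x hx hx' => ?_
    rcases hAcases i hi x (hsub i hx) with h1 | h1 <;>
      rcases hAcases j hj x (hsub j hx') with h2 | h2
    · exact hdis (n - 1 - i) (by omega) (n - 1 - j) (by omega) (by omega) x h1.1 h2.1
    · exact h2.2.2 (n - 1 - i) (by omega) h1.1
    · exact h1.2.2 (n - 1 - j) (by omega) h2.1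
    · exact hThTh (n - 1 - i) (by omega) (n - 1 - j) (by omega) (by omega) x h1.2.1 h2.2.1
  · -- dEx
    intro i hi j hj hij
    refine Set.disjoint_left.2 fun x hx hx' => ?_
    exact hdis (n - 1 - i) (by omega) (n - 1 - j) (by omega) (by omega) x (hPl i hi x hx)
      (hPl j hj x hx')
  · -- dSE
    intro i hi j hj
    refine Set.disjoint_left.2 fun x hx hx' => ?_
    rcases hAcases i hi x (hsub i hx) with h1 | h1
    · by_cases hij : i = j
      · subst hij
        exact h1.2 hx'
      · exact hdis (n - 1 - i) (by omega) (n - 1 - j) (by omega) (by omega) x h1.1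
          (hPl j hj x hx')
    · exact h1.2.2 (n - 1 - j) (by omega) (hPl j hj x hx')

end Pool.Agent.H59.GW.ISO
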