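import Pool.Agent.H59.GW.ISO

/-!
# LIC: few disjoint clean bundles into two disjoint trees
-/

set_option autoImplicit false

namespace Pool.Agent.H59.GW.LIC

open Pool.Agent.H55.GW Pool.Agent.H55.GW.Frame Pool.Agent.H59.GW.ISO

/-- ancestors -/
def anc {W : Type} (par : W → W) (u v : W) : Prop := ∃ k, par^[k] v = u

section tree

variable {W : Type} {par : W → W} {u v x : W}

theorem anc_refl (v : W) : anc par v v := ⟨0, rfl⟩

theorem anc_par (v : W) : anc par (par v) v := ⟨1, rfl⟩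

theorem anc.trans (h1 : anc par u v) (h2 : anc par v x) : anc par u x := by
  obtain ⟨k, rfl⟩ := h1
  obtain ⟨l, rfl⟩ := h2
  exact ⟨k + l, Function.iterate_add_apply _ _ _ _⟩

theorem anc_total (h1 : anc par u x) (h2 : anc par v x) : anc par u v ∨ anc par v u := by
  obtain ⟨k, rfl⟩ := h1
  obtain ⟨l, rfl⟩ := h2
  rcases le_total k l with h | h
  · right
    refine ⟨l - k, ?_⟩
    rw [← Function.iterate_add_apply, Nat.sub_add_cancel h]
  · left
    refine ⟨k - l, ?_⟩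
    rw [← Function.iterate_add_apply, Nat.sub_add_cancel h]

theorem iter_fix {a : W} (ha : par a = a) (k : ℕ) : par^[k] a = a :=
  Function.iterate_fixed ha k

theorem anc_antisymm {a : W} (ha : par a = a) (hv : anc par a v)
    (h1 : anc par u v) (h2 : anc par v u) : u = v := by
  obtain ⟨k, hk⟩ := h1
  obtain ⟨l, hl⟩ := h2
  by_cases h0 : k = 0
  · subst h0
    exact hk.symm
  · -- v is periodic
    have hper : par^[l + k] v = v := by
      rw [Function.iterate_add_apply, hk, hl]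
    have hper2 : ∀ j, par^[(l + k) * j] v = v := by
      intro j
      rw [Function.iterate_mul]
      exact Function.iterate_fixed hper j
    obtain ⟨j, hj⟩ := hv
    have h3 := hper2 j
    have h4 : (l + k) * j = (l + k) * j - j + j := by
      have : j ≤ (l + k) * j := Nat.le_mul_of_pos_left j (by omega)
      omega
    rw [h4, Function.iterate_add_apply, hj, iter_fix ha] at h3
    -- v = a
    subst h3
    rw [iter_fix ha] at hk
    exact hk.symm

end tree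

/-! ### Trees -/

section otree

variable {D : Vx → Vx → Prop} {a : Vx} {P N : Set Vx} {par : Vx → Vx}

/-- vertices of the tree -/
def TV (a : Vx) (P N : Set Vx) : Set Vx := {v | v = a ∨ v ∈ N ∨ v ∈ P}

theorem tv_root (h : OTree D a P N par) {v : Vx} (hv : v ∈ TV a P N) : anc par a v := by
  rcases hv with rfl | hv
  · exact anc_refl _
  · exact h.root v hv

theorem tv_par (h : OTree D a P N par) {v : Vx} (hv : v ∈ TV a P N) : par v ∈ TV a P N := by
  rcases hv with rfl | hv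
  · exact Or.inl h.fix
  · rcases (h.arc v hv).1 with h1 | h1
    · exact Or.inr (Or.inl h1)
    · exact Or.inl h1

theorem tv_anc (h : OTree D a P N par) {u v : Vx} (hv : v ∈ TV a P N) (huv : anc par u v) :
    u ∈ TV a P N := by
  obtain ⟨k, rfl⟩ := huv
  induction k with
  | zero => exact hv
  | succ k ih =>
    rw [Function.iterate_succ_apply']
    exact tv_par h ih

theorem tv_walk (h : OTree D a P N par) {u v : Vx} (hv : v ∈ TV a P N) (huv : anc par u v) :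
    RIn (fun x y => D x y ∧ x = par y ∧ y ≠ a) {x | anc par u x ∧ anc par x v} u v := by
  obtain ⟨k, hk⟩ := huv
  induction k generalizing v with
  | zero =>
    have : v = u := hk
    subst this
    exact RIn.refl ⟨anc_refl _, anc_refl _⟩
  | succ k ih =>
    by_cases hva : v = a
    · subst hva
      have h1 : u = v := by
        rw [← hk]
        exact iter_fix h.fix _
      subst h1
      exact RIn.refl ⟨anc_refl _, anc_refl _⟩
    · have hv' : v ∈ N ∨ v ∈ P := by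
        rcases hv with h1 | h1
        · exact absurd h1 hva
        · exact h1
      have h1 := ih (tv_par h hv) hk
      refine (h1.mono_set ?_).tail ⟨(h.arc v hv').2, rfl, hva⟩ ⟨⟨k + 1, hk⟩, anc_refl _⟩
      rintro x ⟨hx1, hx2⟩
      exact ⟨hx1, hx2.trans (anc_par v)⟩

theorem tv_below (h : OTree D a P N par) {v : Vx} (hv : v ∈ TV a P N) (hva : v ≠ a) :
    ∃ p ∈ P, anc par v p := by
  rcases hv with h1 | h1 | h1
  · exact absurd h1 hva
  · obtain ⟨p, hp, k, hk⟩ := h.below v h1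
    exact ⟨p, hp, k, hk⟩
  · exact ⟨v, h1, anc_refl _⟩

end otree

theorem trS_eq (a : ℕ) (P : Set ℕ) (N : Set Vx) : trS a P N = TV (Sum.inl a) (Sum.inl '' P) N := by
  ext x
  simp only [trS, TV, Set.mem_union, Set.mem_singleton_iff, Set.mem_ofPred_eq]
  tauto

/-! ### Bundles -/

/-- clean disjoint bundles into two trees -/
structure Bun (F : Frame) (m : ℕ → Vx) (a₁ a₂ : ℕ) (P₁ P₂ : Set ℕ) (N₁ N₂ : Set Vx) {n : ℕ}
    (α : Fin n → ℕ) (w d₁ d₂ : Fin n → Vx) (σ R₁ R₂ : Fin n → Set Vx) : Prop where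
  src : ∀ i, α i ∈ F.E ∧ α i ∉ F.base m
  wk : ∀ i, RIn (F.D m) (σ i) (Sum.inl (α i)) (w i)
  wk₁ : ∀ i, RIn (F.D m) (R₁ i) (w i) (d₁ i)
  wk₂ : ∀ i, RIn (F.D m) (R₂ i) (w i) (d₂ i)
  hd₁ : ∀ i, d₁ i ∈ trS a₁ P₁ N₁
  hd₂ : ∀ i, d₂ i ∈ trS a₂ P₂ N₂
  cs : ∀ i, ∀ x, (x ∈ trS a₁ P₁ N₁ ∨ x ∈ trS a₂ P₂ N₂) → x ∉ σ i
  c₁ : ∀ i, ∀ x, (x ∈ trS a₁ P₁ N₁ ∨ x ∈ trS a₂ P₂ N₂) → x ∈ R₁ i → x = d₁ i
  c₂ : ∀ i, ∀ x, (x ∈ trS a₁ P₁ N₁ ∨ x ∈ trS a₂ P₂ N₂) → x ∈ R₂ i → x = d₂ i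
  dis : ∀ i j, i ≠ j → ∀ x, (x ∈ σ i ∨ x ∈ R₁ i ∨ x ∈ R₂ i) → (x ∈ σ j ∨ x ∈ R₁ j ∨ x ∈ R₂ j) →
    False

section bun

variable {F : Frame} {m : ℕ → Vx} {a₁ a₂ : ℕ} {P₁ P₂ : Set ℕ} {N₁ N₂ : Set Vx}
  {par₁ par₂ : Vx → Vx} {n : ℕ} {α : Fin n → ℕ} {w d₁ d₂ : Fin n → Vx}
  {σ R₁ R₂ : Fin n → Set Vx}

theorem Bun.swap (h : Bun F m a₁ a₂ P₁ P₂ N₁ N₂ α w d₁ d₂ σ R₁ R₂) :
    Bun F m a₂ a₁ P₂ P₁ N₂ N₁ α w d₂ d₁ σ R₂ R₁ where
  src := h.src
  wk := h.wk
  wk₁ := h.wk₂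
  wk₂ := h.wk₁
  hd₁ := h.hd₂
  hd₂ := h.hd₁
  cs := fun i x hx => h.cs i x hx.symm
  c₁ := fun i x hx => h.c₂ i x hx.symm
  c₂ := fun i x hx => h.c₁ i x hx.symm
  dis := fun i j hij x h1 h2 => h.dis i j hij x (by tauto) (by tauto)

theorem Bun.comp (h : Bun F m a₁ a₂ P₁ P₂ N₁ N₂ α w d₁ d₂ σ R₁ R₂) {k : ℕ} {g : Fin k → Fin n}
    (hg : Function.Injective g) :
    Bun F m a₁ a₂ P₁ P₂ N₁ N₂ (fun i => α (g i)) (fun i => w (g i)) (fun i => d₁ (g i))
      (fun i => d₂ (g i)) (fun i => σ (g i)) (fun i => R₁ (g i)) (fun i => R₂ (g i)) where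
  src := fun i => h.src _
  wk := fun i => h.wk _
  wk₁ := fun i => h.wk₁ _
  wk₂ := fun i => h.wk₂ _
  hd₁ := fun i => h.hd₁ _
  hd₂ := fun i => h.hd₂ _
  cs := fun i => h.cs _
  c₁ := fun i => h.c₁ _
  c₂ := fun i => h.c₂ _
  dis := fun i j hij => h.dis _ _ fun he => hij (hg he)

theorem two_swap (h : Two F m a₁ a₂ P₁ P₂ N₁ N₂ par₁ par₂) :
    Two F m a₂ a₁ P₂ P₁ N₂ N₁ par₂ par₁ where
  ne := h.ne.symm
  src₁ := h.src₂
  src₂ := h.src₁
  snk₁ := h.snk₂
  snk₂ := h.snk₁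
  dP := h.dP.symm
  dN := h.dN.symm
  inn₁ := h.inn₂
  inn₂ := h.inn₁
  tr₁ := h.tr₂
  tr₂ := h.tr₁

theorem two_dis (h : Two F m a₁ a₂ P₁ P₂ N₁ N₂ par₁ par₂) {x : Vx} (h1 : x ∈ trS a₁ P₁ N₁)
    (h2 : x ∈ trS a₂ P₂ N₂) : False := by
  have hN1 : ∀ e : ℕ, (Sum.inl e : Vx) ∉ N₁ := fun e he => by
    obtain ⟨v, -, hv⟩ := h.inn₁ he
    cases hv
  have hN2 : ∀ e : ℕ, (Sum.inl e : Vx) ∉ N₂ := fun e he => by
    obtain ⟨v, -, hv⟩ := h.inn₂ he
    cases hv
  rw [trS_eq] at h1 h2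
  rcases h1 with rfl | h1 | ⟨p, hp, rfl⟩
  · rcases h2 with h2 | h2 | ⟨p, hp, hp'⟩
    · exact h.ne (Sum.inl_injective h2)
    · exact hN2 _ h2
    · have := Sum.inl_injective hp'
      subst this
      exact h.src₁.2 (h.snk₂ hp)
  · rcases h2 with rfl | h2 | ⟨p, hp, rfl⟩
    · exact hN1 _ h1
    · exact Set.disjoint_left.1 h.dN h1 h2
    · exact hN1 _ h1
  · rcases h2 with h2 | h2 | ⟨p', hp', h2⟩
    · have := Sum.inl_injective h2
      subst this
      exact h.src₂.2 (h.snk₁ hp)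
    · exact hN2 _ h2
    · have := Sum.inl_injective h2
      subst this
      exact Set.disjoint_left.1 h.dP hp hp'

theorem Bun.ne_root (h : Bun F m a₁ a₂ P₁ P₂ N₁ N₂ α w d₁ d₂ σ R₁ R₂)
    (hT : Two F m a₁ a₂ P₁ P₂ N₁ N₂ par₁ par₂) (i : Fin n) : d₁ i ≠ Sum.inl a₁ := by
  intro he
  rcases (h.wk₁ i).cases_tail with h1 | ⟨z, -, h1⟩
  · refine h.cs i (d₁ i) (Or.inl (h.hd₁ i)) ?_
    rw [← h1]
    exact (h.wk i).right_mem
  · rw [he] at h1
    exact no_in_src hT.src₁.2 _ h1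

/-- the walk from `α i` to `d₁ i` -/
theorem Bun.walk₁ (h : Bun F m a₁ a₂ P₁ P₂ N₁ N₂ α w d₁ d₂ σ R₁ R₂) (i : Fin n) :
    RIn (F.D m) (σ i ∪ R₁ i) (Sum.inl (α i)) (d₁ i) :=
  ((h.wk i).mono_set Set.subset_union_left).trans ((h.wk₁ i).mono_set Set.subset_union_right)

theorem Bun.inj (h : Bun F m a₁ a₂ P₁ P₂ N₁ N₂ α w d₁ d₂ σ R₁ R₂) : Function.Injective α := by
  intro i j hij
  by_contra hne
  have h1 := (h.wk i).left_mem
  have h2 := (h.wk j).left_mem
  rw [← hij] at h2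
  exact h.dis i j hne _ (Or.inl h1) (Or.inl h2)

/-- chain/chain -/
theorem chains (cli : T_CLI) {q : ℕ} (hq : 1 < q) {M : Matroid ℕ} (hG : Gam q M)
    (hR : F.Rep M) (hm : F.IsPM m) (hT : Two F m a₁ a₂ P₁ P₂ N₁ N₂ par₁ par₂)
    (h : Bun F m a₁ a₂ P₁ P₂ N₁ N₂ α w d₁ d₂ σ R₁ R₂)
    (h1 : ∀ i j, i < j → anc par₁ (d₁ i) (d₁ j) ∨ anc par₁ (d₁ j) (d₁ i))
    (h2 : ∀ i j, i < j → anc par₂ (d₂ i) (d₂ j) ∨ anc par₂ (d₂ j) (d₂ i)) : n < q := by
  classical
  by_contra hcon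
  push Not at hcon
  have hn : 0 < n := by omega
  -- the lowest vertex of a chain
  have low : ∀ (par : Vx → Vx) (d : Fin n → Vx),
      (∀ i j, i < j → anc par (d i) (d j) ∨ anc par (d j) (d i)) →
      ∃ i₀, ∀ i, anc par (d i) (d i₀) := by
    intro par d hd
    have key : ∀ s : Finset (Fin n), s.Nonempty → ∃ i₀ ∈ s, ∀ i ∈ s, anc par (d i) (d i₀) := by
      intro s hs
      induction hs using Finset.Nonempty.cons_induction with
      | singleton a => exact ⟨a, by simp, fun i hi => by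
          have : i = a := by simpa using hi
          subst this
          exact anc_refl _⟩
      | cons a s ha hs ih =>
        obtain ⟨i₀, hi₀, h3⟩ := ih
        have h4 : anc par (d a) (d i₀) ∨ anc par (d i₀) (d a) := by
          rcases lt_trichotomy a i₀ with h | h | h
          · exact hd _ _ h
          · subst h
            exact Or.inl (anc_refl _)
          · exact (hd _ _ h).symm
        rcases h4 with h4 | h4
        · refine ⟨i₀, Finset.mem_cons_of_mem hi₀, fun i hi => ?_⟩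
          rcases Finset.mem_cons.1 hi with rfl | hi
          · exact h4
          · exact h3 i hi
        · refine ⟨a, Finset.mem_cons_self _ _, fun i hi => ?_⟩
          rcases Finset.mem_cons.1 hi with rfl | hi
          · exact anc_refl _
          · exact (h3 i hi).trans h4
    obtain ⟨i₀, -, h3⟩ := key Finset.univ ⟨⟨0, hn⟩, Finset.mem_univ _⟩
    exact ⟨i₀, fun i => h3 i (Finset.mem_univ _)⟩
  -- the walks into a tree
  have down : ∀ (a : ℕ) (P : Set ℕ) (N : Set Vx) (par : Vx → Vx) (d : Fin n → Vx)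
      (R : Fin n → Set Vx), OTree (F.D m) (Sum.inl a) (Sum.inl '' P) N par →
      (∀ i, d i ∈ trS a P N) → (∀ i, d i ≠ Sum.inl a) → (∀ i, RIn (F.D m) (R i) (w i) (d i)) →
      (∀ i j, i < j → anc par (d i) (d j) ∨ anc par (d j) (d i)) →
      ∃ p ∈ P, ∀ i, RIn (F.D m) (σ i ∪ R i ∪ trS a P N) (Sum.inl (α i)) (Sum.inl p) := by
    intro a P N par d R htr hd hda hw hdd
    obtain ⟨i₀, hi₀⟩ := low par d hdd
    have hd' : ∀ i, d i ∈ TV (Sum.inl a) (Sum.inl '' P) N := fun i => by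
      have := hd i
      rwa [trS_eq] at this
    obtain ⟨p', ⟨p, hp, rfl⟩, hpa⟩ := tv_below htr (hd' i₀) (hda i₀)
    refine ⟨p, hp, fun i => ?_⟩
    have h3 : anc par (d i) (Sum.inl p) := (hi₀ i).trans hpa
    have hpT : (Sum.inl p : Vx) ∈ TV (Sum.inl a) (Sum.inl '' P) N := Or.inr (Or.inr ⟨p, hp, rfl⟩)
    have h4 := tv_walk htr hpT h3
    have h5 : RIn (F.D m) (σ i ∪ R i ∪ trS a P N) (d i) (Sum.inl p) := by
      refine h4.mono (fun u v huv _ _ => huv.1) ?_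
      rintro x ⟨-, hx⟩
      right
      rw [trS_eq]
      exact tv_anc htr hpT hx
    have h6 : RIn (F.D m) (σ i ∪ R i ∪ trS a P N) (Sum.inl (α i)) (w i) :=
      (h.wk i).mono_set fun x hx => Or.inl (Or.inl hx)
    have h7 : RIn (F.D m) (σ i ∪ R i ∪ trS a P N) (w i) (d i) :=
      (hw i).mono_set fun x hx => Or.inl (Or.inr hx)
    exact (h6.trans h7).trans h5
  obtain ⟨p₁, hp₁, hw₁⟩ := down a₁ P₁ N₁ par₁ d₁ R₁ hT.tr₁ h.hd₁ (h.ne_root hT) h.wk₁ h1
  obtain ⟨p₂, hp₂, hw₂⟩ := down a₂ P₂ N₂ par₂ d₂ R₂ hT.tr₂ h.hd₂ (h.swap.ne_root (two_swap hT))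
    h.wk₂ h2
  have hpne : p₁ ≠ p₂ := by
    rintro rfl
    exact Set.disjoint_left.1 hT.dP hp₁ hp₂
  obtain ⟨y, T', hT', hc, hsep⟩ := cli q hq M F m hG hR hm p₁ p₂ hpne (hT.snk₁ hp₁)
    (hT.snk₂ hp₂) (Finset.univ.image α) (by
      intro t ht
      obtain ⟨i, -, rfl⟩ := Finset.mem_image.1 ht
      exact ⟨(h.src i).1, (h.src i).2, (hw₁ i).mono_set (Set.subset_univ _),
        (hw₂ i).mono_set (Set.subset_univ _)⟩) 1 (by
      rw [Finset.card_image_of_injective _ h.inj]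
      simp only [Finset.card_univ, Fintype.card_fin]
      omega)
  obtain ⟨t, ht, t', ht', htt⟩ := Finset.one_lt_card.1 hc
  obtain ⟨i, -, rfl⟩ := Finset.mem_image.1 (hT' ht)
  obtain ⟨j, -, rfl⟩ := Finset.mem_image.1 (hT' ht')
  have hij : i ≠ j := fun he => htt (by rw [he])
  have hy : ∀ i, α i ∈ T' → y ∈ (σ i ∪ R₁ i ∪ trS a₁ P₁ N₁) ∧
      y ∈ (σ i ∪ R₂ i ∪ trS a₂ P₂ N₂) := by
    intro i hi
    constructor
    · obtain ⟨z, hz, hz'⟩ := (hsep _ hi).exists_mem rfl (Or.inl rfl) (hw₁ i)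
      have : z = y := hz
      rwa [this] at hz'
    · obtain ⟨z, hz, hz'⟩ := (hsep _ hi).exists_mem rfl (Or.inr rfl) (hw₂ i)
      have : z = y := hz
      rwa [this] at hz'
  obtain ⟨h3, h4⟩ := hy i ht
  obtain ⟨h5, h6⟩ := hy j ht'
  have hy1 : y ∈ trS a₁ P₁ N₁ := by
    by_contra hy1
    refine h.dis i j hij y ?_ ?_
    · rcases h3 with (h | h) | h
      · exact Or.inl h
      · exact Or.inr (Or.inl h)
      · exact absurd h hy1
    · rcases h5 with (h | h) | h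
      · exact Or.inl h
      · exact Or.inr (Or.inl h)
      · exact absurd h hy1
  have hy2 : y ∈ trS a₂ P₂ N₂ := by
    by_contra hy2
    refine h.dis i j hij y ?_ ?_
    · rcases h4 with (h | h) | h
      · exact Or.inl h
      · exact Or.inr (Or.inr h)
      · exact absurd h hy2
    · rcases h6 with (h | h) | h
      · exact Or.inl h
      · exact Or.inr (Or.inr h)
      · exact absurd h hy2
  exact two_dis hT hy1 hy2

/-- the bound of LO -/
def LOb (q : ℕ) (φ : ℕ → ℕ) (c K : ℕ) : Prop :=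
  ∀ (M : Matroid ℕ) (F : Frame) (m : ℕ → Vx), Gam q M → F.Rep M → F.IsPM m → F.Exits m φ →
  ∀ a₁ a₂ : ℕ, a₁ ≠ a₂ → a₁ ∈ F.E → a₁ ∉ F.base m → a₂ ∈ F.E → a₂ ∉ F.base m →
  ∀ T₁ T₂ : Set Vx, Disjoint T₁ T₂ → ∀ (n : ℕ) (w : Fin n → Vx), Function.Injective w →
  (∀ i, w i ∈ F.inn ∨ w i ∈ F.snk m) → ∀ S₁ S₂ : Fin n → Set Vx,
  (∀ i, RIn (F.D m) (T₁ ∪ S₁ i) (Sum.inl a₁) (w i)) →
  (∀ i, RIn (F.D m) (T₂ ∪ S₂ i) (Sum.inl a₂) (w i)) →
  (∀ x, {i | x ∈ S₁ i}.ncard ≤ c) → (∀ x, {i | x ∈ S₂ i}.ncard ≤ c) → n ≤ K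

/-- concatenation of two simple paths -/
theorem path_append {W : Type} {D : W → W → Prop} {p s : List W} {x d y : W}
    (h1 : IsPath D (p ++ [d]) x d) (h2 : IsPath D (d :: s) d y) (h3 : ∀ v ∈ p, v ∉ d :: s) :
    IsPath D (p ++ d :: s) x y := by
  obtain ⟨c1, n1, e1, -⟩ := h1
  obtain ⟨c2, n2, -, e2⟩ := h2
  refine ⟨List.isChain_split.2 ⟨c1, c2⟩, ?_, ?_, ?_⟩
  · refine List.nodup_append.2 ⟨(List.nodup_append.1 n1).1, n2, ?_⟩
    intro a ha b hb hab
    subst hab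
    exact h3 a ha hb
  · cases p with
    | nil => simpa using e1
    | cons c p => simpa using e1
  · rw [List.getLast?_append_of_ne_nil _ (by simp)]
    exact e2

/-- antichain -/
theorem anti (exc : T_EXC) {q : ℕ} {φ : ℕ → ℕ} {K : ℕ} (hLO : LOb q φ 1 K) {M : Matroid ℕ}
    (hG : Gam q M) (hR : F.Rep M) (hgood : Good F φ) (hm : F.IsPM m)
    (hT : Two F m a₁ a₂ P₁ P₂ N₁ N₂ par₁ par₂)
    (h : Bun F m a₁ a₂ P₁ P₂ N₁ N₂ α w d₁ d₂ σ R₁ R₂)
    (hinc : ∀ i j, i < j → ¬ (anc par₁ (d₁ i) (d₁ j) ∨ anc par₁ (d₁ j) (d₁ i))) : n ≤ K := by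
  classical
  have htr := hT.tr₁
  -- membership in the trees
  have hd' : ∀ i, d₁ i ∈ TV (Sum.inl a₁) (Sum.inl '' P₁) N₁ := fun i => by
    have := h.hd₁ i
    rwa [trS_eq] at this
  have hinc' : ∀ i j, anc par₁ (d₁ i) (d₁ j) → i = j := by
    intro i j hij
    by_contra hne
    rcases lt_or_gt_of_ne hne with h1 | h1
    · exact hinc i j h1 (Or.inl hij)
    · exact hinc j i h1 (Or.inr hij)
  -- leaves below
  have hp : ∀ i, ∃ p ∈ P₁, anc par₁ (d₁ i) (Sum.inl p) := by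
    intro i
    obtain ⟨p', ⟨p, hp, rfl⟩, hpa⟩ := tv_below htr (hd' i) (h.ne_root hT i)
    exact ⟨p, hp, hpa⟩
  choose p hpP hpa using hp
  have hpT : ∀ i, (Sum.inl (p i) : Vx) ∈ TV (Sum.inl a₁) (Sum.inl '' P₁) N₁ := fun i =>
    Or.inr (Or.inr ⟨p i, hpP i, rfl⟩)
  let TD : Fin n → Set Vx := fun i => {x | anc par₁ (d₁ i) x ∧ anc par₁ x (Sum.inl (p i))}
  have hTD : ∀ i, ∀ x ∈ TD i, x ∈ trS a₁ P₁ N₁ := fun i x hx => by
    rw [trS_eq]
    exact tv_anc htr (hpT i) hx.2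
  have hdTD : ∀ i, d₁ i ∈ TD i := fun i => ⟨anc_refl _, hpa i⟩
  -- the two parts of the path
  have hq : ∀ i, ∃ q s : List Vx, IsPath (F.D m) (q ++ [d₁ i]) (Sum.inl (α i)) (d₁ i) ∧
      (∀ v ∈ q ++ [d₁ i], v ∈ σ i ∪ R₁ i) ∧ IsPath (F.D m) (d₁ i :: s) (d₁ i) (Sum.inl (p i)) ∧
      ∀ v ∈ d₁ i :: s, v ∈ TD i := by
    intro i
    obtain ⟨l, h1, h2⟩ := (h.walk₁ i).exists_path
    have h3 : RIn (F.D m) (TD i) (d₁ i) (Sum.inl (p i)) :=
      (tv_walk htr (hpT i) (hpa i)).mono (fun u v huv _ _ => huv.1) subset_rfl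
    obtain ⟨l', h4, h5⟩ := h3.exists_path
    obtain ⟨q, hq⟩ := List.getLast?_eq_some_iff.1 h1.2.2.2
    obtain ⟨s, hs⟩ : ∃ s, l' = d₁ i :: s := by
      have := h4.2.2.1
      cases l' with
      | nil => simp at this
      | cons c l' =>
        have hc : c = d₁ i := by simpa using this
        exact ⟨l', by rw [hc]⟩
    subst hq
    subst hs
    exact ⟨q, s, h1, h2, h4, h5⟩
  choose qq s hq1 hq2 hs1 hs2 using hq
  let l : Fin n → List Vx := fun i => qq i ++ d₁ i :: s i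
  have hlcases : ∀ i, ∀ x ∈ l i, (x ∈ qq i ++ [d₁ i] ∧ x ∈ σ i ∪ R₁ i) ∨ x ∈ TD i := by
    intro i x hx
    rcases List.mem_append.1 hx with h1 | h1
    · exact Or.inl ⟨List.mem_append_left _ h1, hq2 i x (List.mem_append_left _ h1)⟩
    · exact Or.inr (hs2 i x h1)
  have hC1 : ∀ i, ∀ x ∈ l i, x ∈ trS a₁ P₁ N₁ → x ∈ TD i := by
    intro i x hx hxT
    rcases hlcases i x hx with ⟨-, h1 | h1⟩ | h1
    · exact absurd h1 (h.cs i x (Or.inl hxT))
    · rw [h.c₁ i x (Or.inl hxT) h1]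
      exact hdTD i
    · exact h1
  have hC2 : ∀ i, ∀ x ∈ l i, x ∉ trS a₂ P₂ N₂ := by
    intro i x hx hxT
    rcases hlcases i x hx with ⟨-, h1 | h1⟩ | h1
    · exact absurd h1 (h.cs i x (Or.inr hxT))
    · have := h.c₁ i x (Or.inr hxT) h1
      rw [this] at hxT
      exact two_dis hT (h.hd₁ i) hxT
    · exact two_dis hT (hTD i x h1) hxT
  have hTDinj : ∀ i j, ∀ x, x ∈ TD i → x ∈ TD j → i = j := by
    intro i j x hx hx'
    rcases anc_total hx.1 hx'.1 with h1 | h1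
    · exact hinc' i j h1
    · exact (hinc' j i h1).symm
  have hC3 : ∀ i j, ∀ x ∈ l i, (x ∈ σ j ∨ x ∈ R₁ j ∨ x ∈ R₂ j) → i = j := by
    intro i j x hx hxj
    rcases hlcases i x hx with ⟨-, h1⟩ | h1
    · by_contra hne
      refine h.dis i j hne x ?_ hxj
      rcases h1 with h1 | h1
      · exact Or.inl h1
      · exact Or.inr (Or.inl h1)
    · have h2 := hTD i x h1
      rcases hxj with h3 | h3 | h3
      · exact absurd h3 (h.cs j x (Or.inl h2))
      · have := h.c₁ j x (Or.inl h2) h3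
        rw [this] at h1
        exact hinc' i j h1.1
      · have := h.c₂ j x (Or.inl h2) h3
        exact absurd (by rw [this]; exact h.hd₂ j) (hC2 i x hx)
  have hpath : ∀ i, IsPath (F.D m) (l i) (Sum.inl (α i)) (Sum.inl (p i)) := by
    intro i
    refine path_append (hq1 i) (hs1 i) ?_
    intro v hv hv'
    have h1 := hTD i v (hs2 i v hv')
    have hvd : v = d₁ i := by
      rcases hq2 i v (List.mem_append_left _ hv) with h2 | h2
      · exact absurd h2 (h.cs i v (Or.inl h1))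
      · exact h.c₁ i v (Or.inl h1) h2
    subst hvd
    have h3 := (hq1 i).2.1
    exact (List.nodup_append.1 h3).2.2 _ hv _ (by simp) rfl
  have hldis : ∀ i j, i ≠ j → ∀ x ∈ l i, x ∉ l j := by
    intro i j hij x hx hx'
    rcases hlcases i x hx with ⟨-, h1⟩ | h1
    · refine hij.symm (hC3 j i x hx' ?_)
      rcases h1 with h1 | h1
      · exact Or.inl h1
      · exact Or.inr (Or.inl h1)
    · rcases hlcases j x hx' with ⟨-, h2⟩ | h2
      · refine hij (hC3 i j x hx ?_)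
        rcases h2 with h2 | h2
        · exact Or.inl h2
        · exact Or.inr (Or.inl h2)
      · exact hij (hTDinj i j x h1 h2)
  -- the exchange
  obtain ⟨m', hm', hbase, hD'⟩ := exc F m hm n l α p hpath
    (fun i => ⟨(h.src i).1, (h.src i).2, hT.snk₁ (hpP i)⟩) hldis
  have hrev : ∀ i, ∀ x y, Nxt (l i) x y → F.D m' y x := fun i x y h =>
    (hD' y x).2 (Or.inr ⟨i, h⟩)
  have hclean : ∀ x y, F.D m x y → ((∀ i, x ∉ l i) ∨ ∀ i, y ∉ l i) → F.D m' x y := by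
    intro x y hxy hc
    refine (hD' x y).2 (Or.inl ⟨hxy, ?_⟩)
    rintro ⟨i, hN⟩
    obtain ⟨h1, h2⟩ := nxt_mem hN
    rcases hc with hc | hc
    · exact hc i h1
    · exact hc i h2
  -- sources
  have hsrc : ∀ a, (Sum.inl a : Vx) ∈ trS a₁ P₁ N₁ ∨ (Sum.inl a : Vx) ∈ trS a₂ P₂ N₂ →
      a ∉ F.base m → a ∉ F.base m' := by
    intro a ha hab
    rw [hbase]
    rintro (h1 | ⟨i, rfl⟩)
    · exact hab h1.1
    · exact h.cs i _ ha (h.wk i).left_mem
  have hda₁ : (Sum.inl a₁ : Vx) ∈ trS a₁ P₁ N₁ := Or.inl (Or.inl rfl)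
  have hda₂ : (Sum.inl a₂ : Vx) ∈ trS a₂ P₂ N₂ := Or.inl (Or.inl rfl)
  -- the first tree
  let T₁ : Set Vx := {x | ∃ j, anc par₁ x (d₁ j)}
  have hT₁ : ∀ x ∈ T₁, x ∈ trS a₁ P₁ N₁ := by
    rintro x ⟨j, hj⟩
    rw [trS_eq]
    exact tv_anc htr (hd' j) hj
  have hw₁ : ∀ j, RIn (F.D m') T₁ (Sum.inl a₁) (d₁ j) := by
    intro j
    refine (tv_walk htr (hd' j) (tv_root htr (hd' j))).mono ?_ fun x hx => ⟨j, hx.2⟩
    rintro x y ⟨hxy, rfl, hya⟩ - ⟨hy1, hy2⟩
    refine (hD' _ _).2 (Or.inl ⟨hxy, ?_⟩)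
    rintro ⟨i, hN⟩
    obtain ⟨h1, h2⟩ := nxt_mem hN
    have hyT : y ∈ TV (Sum.inl a₁) (Sum.inl '' P₁) N₁ := tv_anc htr (hd' j) hy2
    have h3 : par₁ y ∈ TD i := hC1 i _ h1 (by
      rw [trS_eq]
      exact tv_par htr hyT)
    have h4 : anc par₁ (d₁ i) y := h3.1.trans (anc_par y)
    have h5 : i = j := hinc' i j (h4.trans hy2)
    subst h5
    have h6 : y = d₁ i := anc_antisymm htr.fix (tv_root htr (hd' i)) hy2 h4
    have h7 : anc par₁ y (par₁ y) := by
      rw [h6] at h3 ⊢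
      exact h3.1
    have h8 : par₁ y = y := anc_antisymm htr.fix (tv_root htr hyT) (anc_par y) h7
    obtain ⟨k, hk⟩ := tv_root htr hyT
    rw [iter_fix h8] at hk
    exact hya hk
  -- the second tree
  have hw₂ : ∀ j, RIn (F.D m') (trS a₂ P₂ N₂) (Sum.inl a₂) (d₂ j) := by
    intro j
    have hd2 : d₂ j ∈ TV (Sum.inl a₂) (Sum.inl '' P₂) N₂ := by
      have := h.hd₂ j
      rwa [trS_eq] at this
    have hsub : ∀ x, anc par₂ x (d₂ j) → x ∈ trS a₂ P₂ N₂ := fun x hx => by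
      rw [trS_eq]
      exact tv_anc hT.tr₂ hd2 hx
    refine (tv_walk hT.tr₂ hd2 (tv_root hT.tr₂ hd2)).mono ?_ fun x hx => hsub x hx.2
    rintro x y ⟨hxy, -⟩ hx hy
    exact hclean x y hxy (Or.inl fun i hi => hC2 i x hi (hsub x hx.2))
  -- from the first tree to the second one
  have hw₃ : ∀ i, RIn (F.D m') (σ i ∪ R₁ i ∪ R₂ i) (d₁ i) (d₂ i) := by
    intro i
    have h1 : RIn (F.D m) (σ i ∪ R₂ i) (Sum.inl (α i)) (d₂ i) := h.swap.walk₁ i
    obtain ⟨u, hu, -, h2⟩ := h1.last (T := {x | x ∈ qq i ++ [d₁ i]}) (hq1 i).mem_left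
    have h3 : RIn (F.D m') (σ i ∪ R₁ i ∪ R₂ i) u (d₂ i) := by
      have hcl : ∀ x, x ∈ (σ i ∪ R₂ i) \ {x | x ∈ qq i ++ [d₁ i]} → ∀ j, x ∉ l j := by
        rintro x ⟨hx1, hx2⟩ j hj
        have h4 : j = i := by
          refine hC3 j i x hj ?_
          rcases hx1 with h5 | h5
          · exact Or.inl h5
          · exact Or.inr (Or.inr h5)
        subst h4
        rcases hlcases j x hj with ⟨h5, -⟩ | h5
        · exact hx2 h5
        · have h6 := hTD j x h5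
          rcases hx1 with h7 | h7
          · exact h.cs j x (Or.inl h6) h7
          · have := h.c₂ j x (Or.inl h6) h7
            exact hC2 j x hj (by rw [this]; exact h.hd₂ j)
      refine h2.mono ?_ ?_
      · intro x y hxy hx hy
        refine hclean x y hxy ?_
        rcases hx with hx | hx
        · exact Or.inl (hcl x hx)
        · rcases hy with hy | hy
          · exact Or.inr (hcl y hy)
          · have hx' : x = u := hx
            have hy' : y = u := hy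
            rw [hx', hy'] at hxy
            exact absurd hxy (D_asymm hm hxy)
      · rintro x (⟨hx | hx, -⟩ | hx)
        · exact Or.inl (Or.inl hx)
        · exact Or.inr hx
        · have hx' : x = u := hx
          rw [hx']
          exact Or.inl (hq2 i u hu)
    have h4 : RIn (F.D m') (σ i ∪ R₁ i ∪ R₂ i) (d₁ i) u := by
      obtain ⟨p₁, s₁, hps⟩ := List.append_of_mem hu
      have hmem : d₁ i ∈ u :: s₁ := by
        have h5 := (hq1 i).2.2.2
        rw [hps, List.getLast?_append_of_ne_nil _ (by simp)] at h5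
        exact List.mem_of_getLast? h5
      refine (rev_right (D' := F.D m') hps ?_ _ hmem).mono_set ?_
      · rintro a b ⟨l₁, l₂, h6⟩
        refine hrev i a b ⟨l₁, l₂ ++ s i, ?_⟩
        have h7 : l i = (qq i ++ [d₁ i]) ++ s i := by simp [l]
        rw [h7, h6]
        simp
      · intro x hx
        refine Or.inl (hq2 i x ?_)
        rw [hps]
        exact List.mem_append_right _ hx
    exact h4.trans h3
  refine hLO M F m' hG hR hm' (hgood m' hm').1 a₁ a₂ hT.ne hT.src₁.1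
    (hsrc a₁ (Or.inl hda₁) hT.src₁.2) hT.src₂.1 (hsrc a₂ (Or.inr hda₂) hT.src₂.2) T₁
    (trS a₂ P₂ N₂) (Set.disjoint_left.2 fun x hx hx' => two_dis hT (hT₁ x hx) hx') n d₂ ?_ ?_
    (fun i => σ i ∪ R₁ i ∪ R₂ i) (fun _ => ∅) ?_ ?_ ?_ ?_
  · intro i j hij
    by_contra hne
    refine h.dis i j hne (d₂ i) (Or.inr (Or.inr (h.wk₂ i).right_mem)) (Or.inr (Or.inr ?_))
    rw [hij]
    exact (h.wk₂ j).right_mem
  · intro i
    have hd2 : d₂ i ∈ TV (Sum.inl a₂) (Sum.inl '' P₂) N₂ := by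
      have := h.hd₂ i
      rwa [trS_eq] at this
    rcases hd2 with h1 | h1 | ⟨e, he, h1⟩
    · exact absurd h1 (h.swap.ne_root (two_swap hT) i)
    · exact Or.inl (hT.inn₂ h1)
    · right
      refine ⟨e, ?_, h1.symm⟩
      rw [hbase]
      refine Or.inl ⟨hT.snk₂ he, ?_⟩
      rintro ⟨j, hj⟩
      have := hpP j
      rw [hj] at this
      exact Set.disjoint_left.1 hT.dP this he
  · intro i
    exact ((hw₁ i).mono_set Set.subset_union_left).trans
      ((hw₃ i).mono_set Set.subset_union_right)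
  · intro i
    exact (hw₂ i).mono_set Set.subset_union_left
  · intro x
    refine (Set.ncard_le_one (Set.toFinite _)).2 ?_
    intro i hi j hj
    by_contra hne
    refine h.dis i j hne x ?_ ?_
    · rcases hi with (h1 | h1) | h1
      · exact Or.inl h1
      · exact Or.inr (Or.inl h1)
      · exact Or.inr (Or.inr h1)
    · rcases hj with (h1 | h1) | h1
      · exact Or.inl h1
      · exact Or.inr (Or.inl h1)
      · exact Or.inr (Or.inr h1)
  · intro x
    simp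

end bun

theorem lic (ram : T_RAM) (exc : T_EXC) (lo : T_LO) (cli : T_CLI) : T_LIC := by
  classical
  intro q hq φ hφ
  obtain ⟨K₀, hK₀⟩ := lo q hq φ hφ 1
  obtain ⟨K, hK⟩ := ram 3 (max q (K₀ + 1))
  refine ⟨K, ?_⟩
  intro M F m hG hR hgood hm a₁ a₂ P₁ P₂ N₁ N₂ par₁ par₂ hT n α w d₁ d₂ σ R₁ R₂ h1 h2 h3
  by_contra hcon
  push Not at hcon
  have h : Bun F m a₁ a₂ P₁ P₂ N₁ N₂ α w d₁ d₂ σ R₁ R₂ :=
    { src := fun i => ⟨(h1 i).1, (h1 i).2.1⟩
      wk := fun i => (h1 i).2.2.1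
      wk₁ := fun i => (h1 i).2.2.2.1
      wk₂ := fun i => (h1 i).2.2.2.2.1
      hd₁ := fun i => (h1 i).2.2.2.2.2.1
      hd₂ := fun i => (h1 i).2.2.2.2.2.2
      cs := fun i x hx => (h2 i x hx).1
      c₁ := fun i x hx => (h2 i x hx).2.1
      c₂ := fun i x hx => (h2 i x hx).2.2
      dis := fun i j hij x hx hx' => Set.disjoint_left.1 (h3 i j hij)
        (show x ∈ σ i ∪ R₁ i ∪ R₂ i from by
          rcases hx with h | h | h
          · exact Or.inl (Or.inl h)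
          · exact Or.inl (Or.inr h)
          · exact Or.inr h)
        (show x ∈ σ j ∪ R₁ j ∪ R₂ j from by
          rcases hx' with h | h | h
          · exact Or.inl (Or.inl h)
          · exact Or.inl (Or.inr h)
          · exact Or.inr h) }
  let c : Fin K → Fin n := Fin.castLE hcon.le
  have hc : Function.Injective c := Fin.castLE_injective _
  let A : Fin n → Fin n → Prop := fun i j => anc par₁ (d₁ i) (d₁ j) ∨ anc par₁ (d₁ j) (d₁ i)
  let B : Fin n → Fin n → Prop := fun i j => anc par₂ (d₂ i) (d₂ j) ∨ anc par₂ (d₂ j) (d₂ i)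
  obtain ⟨g, hg, a, ha⟩ := hK fun i j =>
    if A (c i) (c j) then (if B (c i) (c j) then 0 else 1) else 2
  have hgc : Function.Injective (fun i => c (g i)) := hc.comp hg.injective
  have hb := h.comp hgc
  have hcase : (∀ i j, i < j → A (c (g i)) (c (g j)) ∧ B (c (g i)) (c (g j))) ∨
      (∀ i j, i < j → ¬ B (c (g i)) (c (g j))) ∨ ∀ i j, i < j → ¬ A (c (g i)) (c (g j)) := by
    fin_cases a
    · left
      intro i j hij
      have h5 := ha i j hij
      by_cases hA : A (c (g i)) (c (g j))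
      · by_cases hB : B (c (g i)) (c (g j))
        · exact ⟨hA, hB⟩
        · simp [hA, hB] at h5
      · simp [hA] at h5
    · right; left
      intro i j hij hB
      have h5 := ha i j hij
      by_cases hA : A (c (g i)) (c (g j))
      · simp [hA, hB] at h5
      · simp [hA] at h5
    · right; right
      intro i j hij hA
      have h5 := ha i j hij
      by_cases hB : B (c (g i)) (c (g j))
      · simp [hA, hB] at h5
      · simp [hA, hB] at h5
  rcases hcase with h4 | h4 | h4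
  · have := chains cli hq hG hR hm hT hb (fun i j hij => (h4 i j hij).1)
      (fun i j hij => (h4 i j hij).2)
    omega
  · have := anti exc (K := K₀) hK₀ hG hR hgood hm (two_swap hT) hb.swap h4
    omega
  · have := anti exc (K := K₀) hK₀ hG hR hgood hm hT hb h4
    omega

end Pool.Agent.H59.GW.LIC
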