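import Pool.Agent.H55.GW.Targets1

/-!
# Regions with small boundary are small in minimal rigs (module RR of S10293)
-/

set_option autoImplicit false

namespace Pool.Agent.H59.GW.RR

open Pool.Agent.H55.GW Pool.Agent.H55.GW.Frame

/-- the type of the types of regions -/
abbrev Ty (j : ℕ) := (Fin j → Prop) × Set (Set (Fin j)) × (Bool → Fin j → Fin j → Prop)

/-- sizes of the regions of a type -/
def Sz (j : ℕ) (τ : Ty j) : Set ℕ :=
  {n | ∃ (F₂ : Frame) (m₂ : ℕ → Vx) (col₂ : Bool → Set ℕ) (R₂ : Finset ℕ) (b₂ : Fin j → ℕ),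
    F₂.IsPM m₂ ∧ Disjoint (col₂ true) (col₂ false) ∧ Region F₂ m₂ R₂ b₂ ∧
    RegTy F₂ m₂ col₂ R₂ b₂ = τ ∧ R₂.card = n}

theorem rr (hGLU : T_GLU) : T_RR := by
  classical
  intro k
  have hG : ∀ j : ℕ, ∃ G : ℕ, ∀ τ : Ty j, sInf (Sz j τ) ≤ G := by
    intro j
    have hfin : Finite (Ty j) := inferInstance
    obtain ⟨G, hG⟩ := (Set.finite_range (fun τ : Ty j => sInf (Sz j τ))).bddAbove
    exact ⟨G, fun τ => hG ⟨τ, rfl⟩⟩
  choose G hG using hG
  refine ⟨∑ j ∈ Finset.range (k + 1), G j, ?_⟩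
  intro M B R F m col hmin R₀ T hRV hatt hclosed hT hcov
  obtain ⟨hrig, hmin'⟩ := hmin
  set T' := T.filter (fun v => v ∈ F.V ∧ v ∉ R₀) with hT'
  set j := T'.card with hj
  have hjk : j ≤ k := (Finset.card_filter_le _ _).trans hT
  set b : Fin j → ℕ := fun i => (T'.equivFin.symm i : ℕ) with hb
  have hreg : Region F m R₀ b := by
    refine ⟨hRV, hatt, hclosed, ?_, ?_, ?_⟩
    · intro i i' hii
      exact T'.equivFin.symm.injective (Subtype.ext hii)
    · intro i
      have := (T'.equivFin.symm i).2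
      have h2 := Finset.mem_filter.1 this
      exact h2.2
    · intro v hv u hu
      by_cases h : u ∈ R₀
      · exact Or.inl h
      right
      have huT : u ∈ T := (hcov v hv u hu).resolve_left h
      have huV : u ∈ F.V := by
        rcases hu with hu | hu
        · exact adj_left hu
        · exact adj_right hu
      have hmem : u ∈ T' := by
        rw [hT', Finset.mem_filter]
        exact ⟨huT, huV, h⟩
      refine ⟨T'.equivFin ⟨u, hmem⟩, ?_⟩
      simp only [hb, Equiv.symm_apply_apply]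
  have hne : R₀.card ∈ Sz j (RegTy F m col R₀ b) :=
    ⟨F, m, col, R₀, b, hrig.pm, hrig.disj, hreg, rfl, rfl⟩
  obtain ⟨F₂, m₂, col₂, R₂, b₂, h1, h2, h3, h4, h5⟩ := Nat.sInf_mem ⟨_, hne⟩
  obtain ⟨F', m', col', hrig', hcard⟩ :=
    hGLU M B R F m col hrig j R₀ b hreg F₂ m₂ col₂ R₂ b₂ h1 h2 h3 h4.symm
  have h6 : F.V.card ≤ F'.V.card := by
    rcases hmin' F' m' col' hrig' with h | h
    · exact h.le
    · exact h.1.le
  have h7 : R₂.card ≤ G j := by
    rw [h5]
    exact hG j _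
  have h8 : G j ≤ ∑ j ∈ Finset.range (k + 1), G j :=
    Finset.single_le_sum (f := G) (fun _ _ => Nat.zero_le _) (Finset.mem_range.2 (by omega))
  omega

end Pool.Agent.H59.GW.RR
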